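import Pool.Agent.Run7.h495.HM.A2

set_option autoImplicit false

/-! # Bounds for the derivatives along the critical orbit -/

namespace Run7.h495.HM

open Complex Metric Set Filter Topology Pool.Agent.H712R2 Pool.Agent.H713R2 N62a1eb23
open Pool.Agent.Y736.HL

theorem iter_P (d : ℕ) (c : ℂ) (N m : ℕ) : (fc d c)^[N] (P d m c) = P d (m + N) c := by
  unfold P
  rw [← Function.iterate_add_apply, add_comm]

theorem hasDerivAt_fc (d : ℕ) (c z : ℂ) : HasDerivAt (fc d c) ((d : ℂ) * z ^ (d - 1)) z :=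
  (hasDerivAt_pow d z).add_const c

theorem differentiable_iter (d : ℕ) (c : ℂ) (N : ℕ) : Differentiable ℂ ((fc d c)^[N]) :=
  Differentiable.iterate (fun z => (hasDerivAt_fc d c z).differentiableAt) N

theorem norm_deriv_iter (d : ℕ) (c : ℂ) (m N : ℕ) :
    ‖deriv ((fc d c)^[N]) (P d m c)‖ = dL d c m (m + N) := by
  induction N with
  | zero => simp [dL]
  | succ N ih =>
    rw [Function.iterate_succ', ← add_assoc, dL_succ d c (Nat.le_add_right m N)]
    have h := (hasDerivAt_fc d c ((fc d c)^[N] (P d m c))).comp (P d m c)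
      ((differentiable_iter d c N) (P d m c)).hasDerivAt
    rw [h.deriv, norm_mul, ih, iter_P, mul_comm]

theorem dL_of_eventually {d : ℕ} (hd : 2 ≤ d) {c : ℂ} (hc : c ∈ multibrotSet d) {N : ℕ} (hN : 1 ≤ N) {L : ℝ}
    (hL : 1 ≤ L) (h : ∀ᶠ m in atTop, dL d c m (m + N) ≤ L ^ N) :
    ∃ C : ℝ, 0 < C ∧ ∀ m n, m ≤ n → dL d c m n ≤ C * L ^ (n - m) := by
  have hBp : 0 < BD d := one_pos.trans_le (one_le_BD hd)
  obtain ⟨m₀, hm₀⟩ := eventually_atTop.1 h
  have h1 : ∀ k m, m₀ ≤ m → dL d c m (m + k) ≤ BD d ^ N * L ^ k := by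
    intro k
    induction k using Nat.strong_induction_on with
    | _ k ih =>
      intro m hm
      rcases lt_or_ge k N with hk | hk
      · have h2 := dL_le hd c hc (m := m) (n := m + k)
        rw [Nat.add_sub_cancel_left] at h2
        have h3 : BD d ^ k ≤ BD d ^ N := pow_le_pow_right₀ (one_le_BD hd) hk.le
        have h4 : (1 : ℝ) ≤ L ^ k := one_le_pow₀ hL
        have h5 : (0 : ℝ) < BD d ^ N := by positivity
        nlinarith
      · obtain ⟨j, rfl⟩ := Nat.exists_eq_add_of_le hk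
        have h2 := ih j (by omega) (m + N) (by omega)
        have h3 := hm₀ m hm
        rw [← dL_mul d c (k := m + N) (by omega) (by omega), ← add_assoc, pow_add]
        have h4 := mul_le_mul h3 h2 (dL_nonneg _ _ _ _) (by positivity)
        refine h4.trans (le_of_eq ?_)
        ring
  refine ⟨BD d ^ m₀ * BD d ^ N, by positivity, ?_⟩
  intro m n hmn
  have hL' : ∀ k, (1 : ℝ) ≤ L ^ k := fun k => one_le_pow₀ hL
  have e4 : (1 : ℝ) ≤ BD d ^ m₀ := one_le_pow₀ (one_le_BD hd)
  have e4' : (1 : ℝ) ≤ BD d ^ N := one_le_pow₀ (one_le_BD hd)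
  rcases le_or_gt m₀ m with hm | hm
  · have h2 := h1 (n - m) m hm
    rw [Nat.add_sub_cancel' hmn] at h2
    have h3 : 0 ≤ BD d ^ N * L ^ (n - m) := by positivity
    nlinarith
  · rcases le_or_gt n m₀ with hn | hn
    · have h2 := dL_le hd c hc (m := m) (n := n)
      have h3 : BD d ^ (n - m) ≤ BD d ^ m₀ := pow_le_pow_right₀ (one_le_BD hd) (by omega)
      have h4 := hL' (n - m)
      have h5 : BD d ^ m₀ * 1 * 1 ≤ BD d ^ m₀ * BD d ^ N * L ^ (n - m) := by
        apply mul_le_mul _ h4 (by norm_num) (by positivity)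
        exact mul_le_mul_of_nonneg_left e4' (by positivity)
      linarith
    · rw [← dL_mul d c hm.le hn.le]
      have h2 := dL_le hd c hc (m := m) (n := m₀)
      have h3 : BD d ^ (m₀ - m) ≤ BD d ^ m₀ := pow_le_pow_right₀ (one_le_BD hd) (by omega)
      have h4 := h1 (n - m₀) m₀ le_rfl
      rw [Nat.add_sub_cancel' hn.le] at h4
      have h5 : L ^ (n - m₀) ≤ L ^ (n - m) := pow_le_pow_right₀ hL (by omega)
      have h6 : dL d c m m₀ * dL d c m₀ n ≤ BD d ^ m₀ * (BD d ^ N * L ^ (n - m₀)) :=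
        mul_le_mul (h2.trans h3) h4 (dL_nonneg _ _ _ _) (by positivity)
      have h7 : BD d ^ m₀ * BD d ^ N * L ^ (n - m₀) ≤ BD d ^ m₀ * BD d ^ N * L ^ (n - m) :=
        mul_le_mul_of_nonneg_left h5 (by positivity)
      linarith

theorem dL_of_blocks {d : ℕ} (hd : 2 ≤ d) {c : ℂ} (hc : c ∈ multibrotSet d) {N : ℕ} (hN : 1 ≤ N) {K : ℕ} {D : ℝ}
    (h : ∀ m k, K ≤ m → m ≤ k → dL d c (N * m) (N * k) ≤ D) :
    ∃ C : ℝ, ∀ m n, m ≤ n → dL d c m n ≤ C := by
  have hBp : 0 < BD d := one_pos.trans_le (one_le_BD hd)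
  have hD : 1 ≤ D := by
    have := h K K le_rfl le_rfl
    rwa [dL_self] at this
  refine ⟨BD d ^ (N * (K + 2)) * D, ?_⟩
  intro m n hmn
  have e4 : (1 : ℝ) ≤ BD d ^ (N * (K + 2)) := one_le_pow₀ (one_le_BD hd)
  rcases le_or_gt (n - m) (N * (K + 2)) with h1 | h1
  · have h2 := dL_le hd c hc (m := m) (n := n)
    have h3 : BD d ^ (n - m) ≤ BD d ^ (N * (K + 2)) := pow_le_pow_right₀ (one_le_BD hd) h1
    nlinarith
  · obtain ⟨a, ha⟩ : ∃ a, a = m / N := ⟨_, rfl⟩
    obtain ⟨b, hb⟩ : ∃ b, b = n / N := ⟨_, rfl⟩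
    have ha1 : N * a ≤ m := by rw [ha]; exact Nat.mul_div_le m N
    have ha2 : m < N * (a + 1) := by
      rw [ha]; exact Nat.lt_mul_div_succ m (by omega)
    have hb1 : N * b ≤ n := by rw [hb]; exact Nat.mul_div_le n N
    have hb2 : n < N * (b + 1) := by
      rw [hb]; exact Nat.lt_mul_div_succ n (by omega)
    obtain ⟨p, hp⟩ : ∃ p, p = max K (a + 1) := ⟨_, rfl⟩
    have hpK : K ≤ p := by rw [hp]; exact le_max_left _ _
    have hpa : a + 1 ≤ p := by rw [hp]; exact le_max_right _ _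
    have hple : p ≤ a + K + 1 := by rw [hp]; exact max_le (by omega) (by omega)
    have hpb : p ≤ b := by
      have h2 : N * (a + K + 2) < N * (b + 1) := by
        have : N * (a + K + 2) = N * a + N * (K + 2) := by ring
        omega
      have h3 : a + K + 2 < b + 1 := lt_of_mul_lt_mul_left h2 (Nat.zero_le _)
      omega
    have h2 : m ≤ N * p := ha2.le.trans (Nat.mul_le_mul_left N hpa)
    have h3 : N * p ≤ N * b := Nat.mul_le_mul_left N hpb
    rw [← dL_mul d c h2 (h3.trans hb1), ← dL_mul d c h3 hb1]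
    have h4 := dL_le hd c hc (m := m) (n := N * p)
    have h5 : N * p - m ≤ N * (K + 1) := by
      have : N * p ≤ N * (a + K + 1) := Nat.mul_le_mul_left N hple
      have e : N * (a + K + 1) = N * a + N * (K + 1) := by ring
      omega
    have h6 : BD d ^ (N * p - m) ≤ BD d ^ (N * (K + 1)) := pow_le_pow_right₀ (one_le_BD hd) h5
    have h7 := dL_le hd c hc (m := N * b) (n := n)
    have h8 : BD d ^ (n - N * b) ≤ BD d ^ N := by
      apply pow_le_pow_right₀ (one_le_BD hd)
      have e : N * (b + 1) = N * b + N := by ring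
      omega
    have h9 := h p b hpK hpb
    have e : BD d ^ (N * (K + 2)) * D = BD d ^ (N * (K + 1)) * (D * BD d ^ N) := by
      have : N * (K + 2) = N * (K + 1) + N := by ring
      rw [this, pow_add]
      ring
    rw [e]
    apply mul_le_mul (h4.trans h6) _ (mul_nonneg (dL_nonneg _ _ _ _) (dL_nonneg _ _ _ _))
      (by positivity)
    exact mul_le_mul h9 (h7.trans h8) (dL_nonneg _ _ _ _) (by linarith)

end Run7.h495.HM
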