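import Pool.Agent.Y736.HL5
import Pool.Agent.Run7.h495.HM.A3

set_option autoImplicit false

/-! # Bounded derivatives along an orbit converging to a parabolic cycle, end -/

namespace Run7.h495.HM

open Complex Metric Set Filter Topology Pool.Agent.H712R2 Pool.Agent.H713R2 N62a1eb23
open Pool.Agent.Y736.HL (parabolic_germ parabolic_bounds growth prod_bound)

theorem dL_blocks_eq (d : ℕ) (c : ℂ) (N : ℕ) {m k : ℕ} (h : m ≤ k) :
    dL d c (N * m) (N * k) = ∏ j ∈ Finset.Ico m k, dL d c (N * j) (N * j + N) := by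
  induction k, h using Nat.le_induction with
  | base => simp [dL]
  | succ k hk ih =>
    rw [Finset.prod_Ico_succ_top hk, ← ih, mul_add, mul_one,
      dL_mul d c (Nat.mul_le_mul_left N hk) (Nat.le_add_right _ _)]

theorem iter_ne_id {d : ℕ} (hd : 2 ≤ d) (c : ℂ) {N : ℕ} (hN : 1 ≤ N) :
    ∃ z, (fc d c)^[N] z ≠ z := by
  by_contra hcon
  push Not at hcon
  obtain ⟨ω, hω⟩ : ∃ ω : ℂ, ω ^ d = 1 ∧ ω ≠ 1 := by
    refine ⟨Complex.exp (2 * Real.pi * I / d), ?_, ?_⟩
    · exact (Complex.isPrimitiveRoot_exp d (by omega)).pow_eq_one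
    · exact (Complex.isPrimitiveRoot_exp d (by omega)).ne_one (by omega)
  have h1 : ∀ z, (fc d c)^[N] (ω * z) = (fc d c)^[N] z := by
    intro z
    obtain ⟨k, rfl⟩ : ∃ k, N = k + 1 := ⟨N - 1, by omega⟩
    rw [Function.iterate_succ_apply, Function.iterate_succ_apply]
    have : fc d c (ω * z) = fc d c z := by
      unfold fc
      rw [mul_pow, hω.1, one_mul]
    rw [this]
  have h2 := h1 1
  rw [hcon, hcon, mul_one] at h2
  exact hω.2 h2

/-- **bounded derivatives along the critical orbit of a parabolic parameter** -/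
theorem parabolic_dL {d : ℕ} (hd : 2 ≤ d) {c₀ : ℂ} (hc₀ : c₀ ∈ multibrotSet d) {N : ℕ} (hN : 1 ≤ N) {z₀ : ℂ}
    (hfix : (fc d c₀)^[N] z₀ = z₀) (hder : deriv ((fc d c₀)^[N]) z₀ = 1)
    (hlim : Tendsto (fun k => P d (N * k) c₀) atTop (𝓝 z₀)) :
    ∃ C : ℝ, ∀ m n, m ≤ n → dL d c₀ m n ≤ C := by
  obtain ⟨g, hgdef⟩ : ∃ g, g = (fc d c₀)^[N] := ⟨_, rfl⟩
  have hg : Differentiable ℂ g := by rw [hgdef]; exact differentiable_iter d c₀ N
  have hstep : ∀ k, g (P d (N * k) c₀) = P d (N * (k + 1)) c₀ := by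
    intro k
    rw [hgdef, iter_P, mul_add, mul_one]
  have hLLd : ∀ k, dL d c₀ (N * k) (N * k + N) = ‖deriv g (P d (N * k) c₀)‖ := by
    intro k
    rw [hgdef, norm_deriv_iter]
  rw [← hgdef] at hfix hder
  by_cases hex : ∃ K, P d (N * K) c₀ = z₀
  · obtain ⟨K, hK⟩ := hex
    have h1 : ∀ j, K ≤ j → P d (N * j) c₀ = z₀ := by
      intro j hj
      induction j, hj using Nat.le_induction with
      | base => exact hK
      | succ j hj ih => rw [← hstep, ih, hfix]
    apply dL_of_blocks hd hc₀ hN (K := K) (D := 1)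
    intro m k hm hmk
    rw [dL_blocks_eq d c₀ N hmk]
    apply le_of_eq
    apply Finset.prod_eq_one
    intro j hj
    rw [hLLd, h1 j (hm.trans (Finset.mem_Ico.1 hj).1), hder, norm_one]
  · push Not at hex
    obtain ⟨ν, a, hν, ha, ha0, hev⟩ := parabolic_germ hg hfix hder (by
      rw [hgdef]
      exact iter_ne_id hd c₀ hN)
    obtain ⟨C, hC, hev2⟩ := parabolic_bounds hg hν ha hev
    have hu : Tendsto (fun k => P d (N * k) c₀ - z₀) atTop (𝓝 0) := by
      have := hlim.sub_const z₀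
      rwa [sub_self] at this
    obtain ⟨K₀, hK₀⟩ := eventually_atTop.1 (hu.eventually hev2)
    obtain ⟨u, hudef⟩ : ∃ u : ℕ → ℂ, u = fun k => P d (N * (K₀ + k)) c₀ - z₀ := ⟨_, rfl⟩
    have hu' : Tendsto u atTop (𝓝 0) := by
      rw [hudef]
      have h1 := (tendsto_add_atTop_iff_nat K₀).2 hu
      refine h1.congr fun k => ?_
      rw [add_comm k K₀]
    have hu0 : ∀ j, u j ≠ 0 := by
      intro j
      rw [hudef]
      exact sub_ne_zero.2 (hex _)
    have hs : ∀ j, u (j + 1) = u j * (1 + u j ^ ν * a (u j)) := by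
      intro j
      have h1 := (hK₀ (K₀ + j) (Nat.le_add_right _ _)).1
      rw [show z₀ + (P d (N * (K₀ + j)) c₀ - z₀) = P d (N * (K₀ + j)) c₀ by ring, hstep] at h1
      rw [hudef]
      simp only
      rw [← add_assoc, h1]
      ring
    have hlim' : Tendsto (fun j => u j ^ ν * a (u j) / u j ^ ν) atTop (𝓝 (a 0)) := by
      have h1 : Tendsto (fun j => a (u j)) atTop (𝓝 (a 0)) := ha.continuousAt.tendsto.comp hu'
      refine h1.congr fun j => ?_
      rw [mul_div_cancel_left₀ _ (pow_ne_zero _ (hu0 j))]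
    obtain ⟨K, D, hKD⟩ := prod_bound hν ha0 hu0 hs hlim' hu' hC
      (d := fun j => ‖deriv g (P d (N * (K₀ + j)) c₀)‖) (fun j => norm_nonneg _) (by
        intro j
        have h1 := (hK₀ (K₀ + j) (Nat.le_add_right _ _)).2
        rw [show z₀ + (P d (N * (K₀ + j)) c₀ - z₀) = P d (N * (K₀ + j)) c₀ by ring] at h1
        rw [hudef]
        exact h1)
    apply dL_of_blocks hd hc₀ hN (K := K₀ + K) (D := D)
    intro m k hm hmk
    rw [dL_blocks_eq d c₀ N hmk]
    have h1 := hKD (m - K₀) (k - K₀) (by omega) (by omega)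
    refine le_trans (le_of_eq ?_) h1
    have e1 : m = (m - K₀) + K₀ := by omega
    have e2 : k = (k - K₀) + K₀ := by omega
    have h3 := Finset.prod_Ico_add' (fun j => dL d c₀ (N * j) (N * j + N)) (m - K₀) (k - K₀) K₀
    rw [← e1, ← e2] at h3
    rw [← h3]
    apply Finset.prod_congr rfl
    intro j _
    rw [hLLd, add_comm K₀ j]

end Run7.h495.HM
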