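import Pool.Agent.W677.MC8
import Pool.Agent.Run7.h495.HM.A5

set_option autoImplicit false

/-! # Lower bounds for the escape rate, and boundary values -/

namespace Run7.h495.HM

open Complex Metric Set Filter Topology Pool.Agent.H712R2 Pool.Agent.H713R2 N62a1eb23

/-- lower bound of the escape rate from the growth of the derivative in the parameter -/
theorem lower_pow {d : ℕ} (hd : 2 ≤ d) {c₀ : ℂ} {a L : ℝ} (ha : 0 < a) (hL : 1 < L)
    (hD : ∀ᶠ n in atTop, a * L ^ n ≤ ‖deriv (P d n) c₀‖) :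
    ∃ k : ℝ, 0 < k ∧ ∀ ψ : ℂ → ℂ, IsExteriorMap (multibrotSet d) ψ → ∀ ρ : ℝ, 0 < ρ → ρ ≤ 1 →
      ∃ w : ℂ, 1 < ‖w‖ ∧ ‖ψ w - c₀‖ ≤ ρ ∧ k * ρ ^ (Real.log d / Real.log L) ≤ ‖w‖ - 1 := by
  obtain ⟨n₀, hn₀⟩ := eventually_atTop.1 hD
  have hlogL : 0 < Real.log L := Real.log_pos hL
  have hd0 : (0 : ℝ) < d := by exact_mod_cast (by omega : 0 < d)
  have hd1 : (1 : ℝ) < d := by exact_mod_cast (by omega : 1 < d)
  have hlog2 : 0 < Real.log d := Real.log_pos hd1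
  obtain ⟨s, hs⟩ : ∃ s, s = Real.log d / Real.log L := ⟨_, rfl⟩
  have hs0 : 0 < s := by rw [hs]; positivity
  rw [← hs]
  have hLs : ∀ n : ℕ, (d : ℝ) ^ n = (L ^ n) ^ s := by
    intro n
    rw [← Real.rpow_natCast L n, ← Real.rpow_mul (by linarith), ← Real.rpow_natCast (d : ℝ) n]
    rw [Real.rpow_def_of_pos hd0, Real.rpow_def_of_pos (by linarith), hs]
    congr 1
    field_simp
  obtain ⟨B, hB⟩ : ∃ B, B = (3 + a) / a * L ^ (n₀ + 2) := ⟨_, rfl⟩
  have hB0 : 0 < B := by rw [hB]; positivity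
  refine ⟨1 / 3 / B ^ s, by positivity, ?_⟩
  intro ψ hψ ρ hρ hρ1
  -- the first time at which the derivative is large
  obtain ⟨n, hn1, hn2⟩ := exists_nat_pow_near (x := (3 + a) / (a * ρ)) (y := L) (by
    rw [le_div_iff₀ (by positivity)]
    nlinarith) hL
  obtain ⟨m, hm⟩ : ∃ m, m = n + 1 + n₀ := ⟨_, rfl⟩
  have h1 : 3 / ρ < ‖deriv (P d (m + 1)) c₀‖ := by
    have h2 := hn₀ (m + 1) (by omega)
    refine lt_of_lt_of_le ?_ h2
    have h3 : L ^ (n + 1) ≤ L ^ (m + 1) := pow_le_pow_right₀ hL.le (by omega)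
    have h4 : (3 + a) / (a * ρ) < L ^ (m + 1) := hn2.trans_le h3
    rw [div_lt_iff₀ (by positivity)] at h4
    rw [div_lt_iff₀ hρ]
    linarith
  -- a point on the circle of radius `ρ` with large value
  obtain ⟨c, hc1, hc2⟩ : ∃ c, ‖c - c₀‖ = ρ ∧ 3 < ‖P d (m + 1) c‖ := by
    by_contra hcon
    push Not at hcon
    have h2 : ‖deriv (P d (m + 1)) c₀‖ ≤ 3 / ρ := by
      apply Complex.norm_deriv_le_of_forall_mem_sphere_norm_le hρ
      · exact (Pool.Agent.H713R2.differentiable_P d (m + 1)).diffContOnCl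
      · intro c hc
        rw [mem_sphere_iff_norm] at hc
        exact hcon c hc
    linarith
  have hcM : c ∈ (multibrotSet d)ᶜ := by
    intro h
    have := (mem_multibrot_iff hd c).1 h (m + 1)
    linarith
  rw [← hψ.image] at hcM
  obtain ⟨w, hw, rfl⟩ := hcM
  refine ⟨w, hw, hc1.le, ?_⟩
  have hw' : 1 < ‖w‖ := hw
  have h3 := Pool.Agent.W677.MC.P_le_two hd hψ hw m
  have h4 : 3 / 2 < ‖w‖ ^ (d ^ m) := by linarith
  -- `‖w‖ - 1 ≥ (1/3) / 2^m`
  have h5 : 1 / 3 < (‖w‖ - 1) * d ^ m := by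
    have h6 : Real.log (3 / 2) < d ^ m * Real.log ‖w‖ := by
      have := Real.log_lt_log (by norm_num) h4
      rw [Real.log_pow] at this
      push_cast at this
      exact this
    have h7 : Real.log ‖w‖ ≤ ‖w‖ - 1 := Real.log_le_sub_one_of_pos (by linarith)
    have h8 : (1 : ℝ) / 3 ≤ Real.log (3 / 2) := by
      have := Real.one_sub_inv_le_log_of_pos (show (0 : ℝ) < 3 / 2 by norm_num)
      norm_num at this ⊢
      linarith
    have h9 : (d : ℝ) ^ m * Real.log ‖w‖ ≤ d ^ m * (‖w‖ - 1) :=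
      mul_le_mul_of_nonneg_left h7 (by positivity)
    linarith
  have h6 : (d : ℝ) ^ m ≤ B ^ s / ρ ^ s := by
    rw [hLs m, ← Real.div_rpow hB0.le hρ.le]
    apply Real.rpow_le_rpow (by positivity) _ hs0.le
    rw [hm, hB, show n + 1 + n₀ = n + (n₀ + 1) by ring, pow_add]
    have h7 : L ^ n * L ^ (n₀ + 1) ≤ (3 + a) / (a * ρ) * L ^ (n₀ + 1) :=
      mul_le_mul_of_nonneg_right hn1 (by positivity)
    refine h7.trans ?_
    have e : (3 + a) / a * L ^ (n₀ + 2) / ρ = (3 + a) / (a * ρ) * L ^ (n₀ + 2) := by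
      field_simp
    rw [e]
    apply mul_le_mul_of_nonneg_left _ (by positivity)
    exact pow_le_pow_right₀ hL.le (by omega)
  have h7 : 0 < ρ ^ s := Real.rpow_pos_of_pos hρ _
  have h8 : 0 < B ^ s := Real.rpow_pos_of_pos hB0 _
  have h9 : (‖w‖ - 1) * d ^ m ≤ (‖w‖ - 1) * (B ^ s / ρ ^ s) :=
    mul_le_mul_of_nonneg_left h6 (by linarith)
  have h10 : 1 / 3 ≤ (‖w‖ - 1) * B ^ s / ρ ^ s := by
    rw [mul_div_assoc]
    linarith
  rw [le_div_iff₀ h7] at h10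
  rw [div_mul_eq_mul_div, div_le_iff₀ h8]
  linarith

/-- a continuous extension of the exterior map takes every boundary value -/
theorem exists_angle {d : ℕ} {c₀ : ℂ} (hc₀ : c₀ ∈ multibrotSet d) (hb : c₀ ∈ closure (multibrotSet d)ᶜ)
    {ψ F : ℂ → ℂ} (hψ : IsExteriorMap (multibrotSet d) ψ) (hF : ContinuousOn F {z | 1 ≤ ‖z‖})
    (hE : ∀ w, 1 < ‖w‖ → F w = ψ w) : ∃ ζ : ℂ, ‖ζ‖ = 1 ∧ F ζ = c₀ := by
  have hex : ∀ k : ℕ, ∃ z : ℂ, 1 < ‖z‖ ∧ ‖ψ z - c₀‖ ≤ 1 / ((k : ℝ) + 1) := by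
    intro k
    obtain ⟨c, hc, hd⟩ := Metric.mem_closure_iff.1 hb (1 / ((k : ℝ) + 1)) (by positivity)
    rw [← hψ.image] at hc
    obtain ⟨z, hz, rfl⟩ := hc
    refine ⟨z, hz, ?_⟩
    rw [dist_comm, dist_eq_norm] at hd
    exact hd.le
  choose z hz1 hz3 using hex
  -- the sequence is bounded
  have hbd : ∃ R : ℝ, ∀ k, ‖z k‖ ≤ R := by
    have h1 := hψ.infinity.eventually (Metric.ball_mem_nhds (1 : ℂ) (show (0 : ℝ) < 1 / 2 by norm_num))
    rw [← comap_norm_atTop, eventually_comap] at h1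
    obtain ⟨R, hR⟩ := eventually_atTop.1 h1
    refine ⟨max R (2 * (‖c₀‖ + 1)), fun k => ?_⟩
    by_contra hcon
    push Not at hcon
    rw [max_lt_iff] at hcon
    have h2 := hR _ hcon.1.le (z k) rfl
    have h0 : 0 < ‖z k‖ := by linarith [hz1 k]
    rw [dist_eq_norm] at h2
    have h3 : 1 / 2 < ‖ψ (z k) / z k‖ := by
      have := norm_sub_norm_le (1 : ℂ) (1 - ψ (z k) / z k)
      rw [sub_sub_cancel, norm_one, norm_sub_rev] at this
      linarith
    rw [norm_div, lt_div_iff₀ h0] at h3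
    have h4 := norm_add_le (ψ (z k) - c₀) c₀
    rw [sub_add_cancel] at h4
    have h5 := hz3 k
    have h6 : 1 / ((k : ℝ) + 1) ≤ 1 := by
      rw [div_le_one (by positivity)]
      linarith [(Nat.cast_nonneg k : (0 : ℝ) ≤ k)]
    linarith [hcon.2]
  obtain ⟨R, hR⟩ := hbd
  have hK : IsCompact ({w : ℂ | 1 ≤ ‖w‖} ∩ closedBall 0 R) := by
    apply (isCompact_closedBall (0 : ℂ) R).inter_left
    exact isClosed_le continuous_const continuous_norm
  obtain ⟨ζ, hζ, φ, hφ, hlim⟩ := hK.tendsto_subseq (x := z) (fun k => ⟨(hz1 k).le, by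
    rw [mem_closedBall_zero_iff]
    exact hR k⟩)
  have h1 : Tendsto (fun k => F (z (φ k))) atTop (𝓝 (F ζ)) := by
    have h2 := (hF ζ hζ.1).tendsto
    refine h2.comp ?_
    rw [tendsto_nhdsWithin_iff]
    exact ⟨hlim, Eventually.of_forall fun k => (hz1 _).le⟩
  have h2 : Tendsto (fun k => ψ (z k) - c₀) atTop (𝓝 0) := by
    rw [tendsto_zero_iff_norm_tendsto_zero]
    exact squeeze_zero (fun k => norm_nonneg _) hz3 (tendsto_one_div_add_atTop_nhds_zero_nat (𝕜 := ℝ))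
  have h3 : Tendsto (fun k => F (z (φ k))) atTop (𝓝 c₀) := by
    have h4 := (h2.comp hφ.tendsto_atTop).add_const c₀
    rw [zero_add] at h4
    refine h4.congr fun k => ?_
    simp only [Function.comp]
    rw [hE _ (hz1 (φ k))]
    ring
  have hFζ : F ζ = c₀ := tendsto_nhds_unique h1 h3
  refine ⟨ζ, ?_, hFζ⟩
  by_contra hcon
  have h4 : 1 < ‖ζ‖ := lt_of_le_of_ne hζ.1 (Ne.symm hcon)
  have h5 : ψ ζ ∈ (multibrotSet d)ᶜ := by
    rw [← hψ.image]
    exact ⟨ζ, h4, rfl⟩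
  rw [← hE _ h4, hFζ] at h5
  exact h5 hc₀

end Run7.h495.HM
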