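import Pool.Agent.TH279.MD.Repel
import Pool.Agent.Y298.SH.Grow
import Pool.Agent.Y298.SH.Lev
import Pool.Agent.Run7.h495.HM.A6

set_option autoImplicit false

/-! # Misiurewicz parameters: both rates of growth agree -/

namespace Run7.h495.HM

open Complex Metric Set Filter Topology Pool.Agent.H712R2 Pool.Agent.H713R2 N62a1eb23
open Pool.Agent.TH279.MD (vv Orb orb_of_preper repelling)

theorem vv_eq_P {d : ℕ} (hd : 2 ≤ d) (c : ℂ) (j : ℕ) : vv d c c j = P d (j + 1) c := by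
  induction j with
  | zero =>
    rw [Pool.Agent.TH279.MD.vv_zero, zero_add, P_one hd]
  | succ j ih => rw [Pool.Agent.TH279.MD.vv_succ, ih, P_succ d (j + 1)]

theorem P_per {d : ℕ} {c : ℂ} {l p : ℕ} (h : P d (l + p) c = P d l c) {m : ℕ} (hm : l ≤ m) :
    P d (m + p) c = P d m c := by
  induction m, hm using Nat.le_induction with
  | base => exact h
  | succ m hm ih => rw [show m + 1 + p = (m + p) + 1 by ring, P_succ, ih, ← P_succ]

theorem fac_ne {d : ℕ} (hd : 2 ≤ d) {c : ℂ} {m : ℕ} (h : P d m c ≠ 0) :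
    ‖(d : ℂ) * P d m c ^ (d - 1)‖ ≠ 0 := by
  rw [norm_ne_zero_iff]
  exact mul_ne_zero (Nat.cast_ne_zero.2 (by omega)) (pow_ne_zero _ h)

theorem dL_pos {d : ℕ} (hd : 2 ≤ d) {c : ℂ} (hnp : ∀ p : ℕ, 1 ≤ p → P d p c ≠ 0) {m n : ℕ}
    (hm : 1 ≤ m) : 0 < dL d c m n := by
  unfold dL
  apply Finset.prod_pos
  intro i hi
  exact lt_of_le_of_ne (norm_nonneg _)
    (fac_ne hd (hnp i (hm.trans (Finset.mem_Ico.1 hi).1))).symm

theorem dL_win {d : ℕ} (hd : 2 ≤ d) {c : ℂ} (hnp : ∀ p : ℕ, 1 ≤ p → P d p c ≠ 0) {l p : ℕ}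
    (hl : 1 ≤ l) (h : P d (l + p) c = P d l c) {m : ℕ} (hm : l ≤ m) :
    dL d c m (m + p) = dL d c l (l + p) := by
  induction m, hm using Nat.le_induction with
  | base => rfl
  | succ m hm ih =>
    rw [← ih]
    have h1 := dL_mul d c (m := m) (k := m + 1) (n := m + 1 + p) (by omega) (by omega)
    have h2 := dL_succ d c (m := m) (n := m + p) (by omega)
    have h3 := dL_succ d c (m := m) (n := m) le_rfl
    rw [dL_self, one_mul] at h3
    rw [show m + 1 + p = m + p + 1 by ring, h2, h3, P_per h hm] at h1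
    have h4 := fac_ne hd (hnp m (hl.trans hm))
    rw [show m + 1 + p = m + p + 1 by ring]
    apply mul_left_cancel₀ h4
    rw [h1, mul_comm]

theorem dL_wins {d : ℕ} (hd : 2 ≤ d) {c : ℂ} (hnp : ∀ p : ℕ, 1 ≤ p → P d p c ≠ 0) {l p : ℕ}
    (hl : 1 ≤ l) (h : P d (l + p) c = P d l c) {m : ℕ} (hm : l ≤ m) (q : ℕ) :
    dL d c m (m + p * q) = dL d c l (l + p) ^ q := by
  induction q with
  | zero => rw [mul_zero, add_zero, dL_self, pow_zero]
  | succ q ih =>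
    rw [mul_add, mul_one, ← add_assoc, ← dL_mul d c (k := m + p * q) (by omega) (by omega), ih,
      dL_win hd hnp hl h (m := m + p * q) (by omega), pow_succ]

/-- the cycle is repelling -/
theorem one_lt_mult {d : ℕ} (hd : 2 ≤ d) {c : ℂ} (hnp : ∀ p : ℕ, 1 ≤ p → P d p c ≠ 0) {l p : ℕ}
    (hl : 1 ≤ l) (hp : 1 ≤ p) (h : P d (l + p) c = P d l c) : 1 < dL d c l (l + p) := by
  obtain ⟨L, k, ω, hO⟩ := orb_of_preper hd (c₀ := c) ⟨l, p, hp, h⟩ hnp
  have h1 := repelling hd hO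
  have hlt := hO.lt
  obtain ⟨p₀, hp₀⟩ : ∃ p₀, L = k + p₀ := ⟨L - k, by omega⟩
  have hp1 : 1 ≤ p₀ := by omega
  have h2 : P d (k + 2 + p₀) c = P d (k + 2) c := by
    have h3 : vv d c c (L + 1) = vv d c c (k + 1) := by
      rw [Pool.Agent.TH279.MD.vv_succ, Pool.Agent.TH279.MD.vv_succ, hO.opp, mul_pow, hO.root,
        one_mul]
    rw [vv_eq_P hd, vv_eq_P hd] at h3
    rw [show k + 2 + p₀ = L + 1 + 1 by omega]
    exact h3
  have h3 : ‖∏ j ∈ Finset.Icc (k + 1) L, ((d : ℂ) * vv d c c j ^ (d - 1))‖ =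
      dL d c (k + 2) (k + 2 + p₀) := by
    unfold dL
    rw [norm_prod]
    have h4 : Finset.Icc (k + 1) L = Finset.Ico (k + 1) (L + 1) := by
      ext x
      simp only [Finset.mem_Icc, Finset.mem_Ico]
      omega
    rw [h4]
    have h5 := Finset.prod_Ico_add' (fun i => ‖(d : ℂ) * P d i c ^ (d - 1)‖) (k + 1) (L + 1) 1
    rw [show k + 2 + p₀ = L + 1 + 1 by omega]
    rw [show k + 2 = k + 1 + 1 by rfl]
    rw [← h5]
    apply Finset.prod_congr rfl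
    intro j _
    rw [vv_eq_P hd]
  rw [h3] at h1
  by_contra hcon
  push Not at hcon
  obtain ⟨m, hm⟩ : ∃ m, m = max l (k + 2) := ⟨_, rfl⟩
  have h5 := dL_wins hd hnp hl h (m := m) (by rw [hm]; exact le_max_left _ _) p₀
  have h6 := dL_wins hd hnp (by omega) h2 (m := m) (by rw [hm]; exact le_max_right _ _) p
  rw [mul_comm p₀ p, h5] at h6
  have h7 : dL d c l (l + p) ^ p₀ ≤ 1 := pow_le_one₀ (dL_nonneg _ _ _ _) hcon
  have h8 : 1 < dL d c (k + 2) (k + 2 + p₀) ^ p := one_lt_pow₀ h1 (by omega)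
  linarith

/-- two-sided bounds of the derivatives along the critical orbit -/
theorem mis_bounds {d : ℕ} (hd : 2 ≤ d) {c : ℂ} (hc : c ∈ multibrotSet d)
    (hnp : ∀ p : ℕ, 1 ≤ p → P d p c ≠ 0) {l p : ℕ}
    (hl : 1 ≤ l) (hp : 1 ≤ p) (h : P d (l + p) c = P d l c) {Λ : ℝ} (hΛ : 1 < Λ)
    (hΛp : Λ ^ p = dL d c l (l + p)) :
    (∃ C : ℝ, 0 < C ∧ ∀ m n, m ≤ n → dL d c m n ≤ C * Λ ^ (n - m)) ∧
    ∃ a : ℝ, 0 < a ∧ ∀ m n, 1 ≤ m → m ≤ n → a * Λ ^ (n - m) ≤ dL d c m n := by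
  obtain ⟨C, hC, hCL⟩ := dL_of_eventually hd hc hp hΛ.le (by
    filter_upwards [eventually_ge_atTop l] with m hm
    rw [dL_win hd hnp hl h hm, hΛp])
  refine ⟨⟨C, hC, hCL⟩, ?_⟩
  have hΛ0 : 0 < Λ := by linarith
  -- lower bound on the cycle
  have h1 : ∀ n, l ≤ n → Λ ^ n ≤ C * Λ ^ l * dL d c l n := by
    intro n hn
    obtain ⟨q, hq⟩ : ∃ q, q = n - l := ⟨_, rfl⟩
    have hn' : n ≤ l + p * q := by
      have : 1 * q ≤ p * q := Nat.mul_le_mul_right q hp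
      omega
    have h2 := dL_wins hd hnp hl h le_rfl q
    rw [← hΛp, ← pow_mul, ← dL_mul d c hn hn'] at h2
    have h3 := hCL n (l + p * q) hn'
    have h4 : Λ ^ (p * q) ≤ dL d c l n * (C * Λ ^ (l + p * q - n)) := by
      rw [← h2]
      exact mul_le_mul_of_nonneg_left h3 (dL_nonneg _ _ _ _)
    have h5 : Λ ^ (p * q) * Λ ^ l = Λ ^ n * Λ ^ (l + p * q - n) := by
      rw [← pow_add, ← pow_add]
      congr 1
      omega
    have h6 : 0 < Λ ^ (l + p * q - n) := by positivity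
    have h7 : Λ ^ n * Λ ^ (l + p * q - n) ≤ C * Λ ^ l * dL d c l n * Λ ^ (l + p * q - n) := by
      rw [← h5]
      calc Λ ^ (p * q) * Λ ^ l ≤ dL d c l n * (C * Λ ^ (l + p * q - n)) * Λ ^ l :=
            mul_le_mul_of_nonneg_right h4 (by positivity)
        _ = _ := by ring
    exact le_of_mul_le_mul_right h7 h6
  obtain ⟨e, he⟩ : ∃ e, e = dL d c 1 l := ⟨_, rfl⟩
  have he0 : 0 < e := by rw [he]; exact dL_pos hd hnp le_rfl
  refine ⟨e / (C ^ 3 * Λ ^ (2 * l)), by positivity, ?_⟩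
  intro m n hm hmn
  obtain ⟨n', hn'⟩ : ∃ n', n' = max n l := ⟨_, rfl⟩
  have hnn' : n ≤ n' := by rw [hn']; exact le_max_left _ _
  have hln' : l ≤ n' := by rw [hn']; exact le_max_right _ _
  have h2 : dL d c 1 m * dL d c m n * dL d c n n' = e * dL d c l n' := by
    rw [dL_mul d c hm hmn, dL_mul d c (hm.trans hmn) hnn', he, dL_mul d c hl hln']
  have h3 := hCL 1 m hm
  have h4 := hCL n n' hnn'
  have h5 := h1 n' hln'
  have hX := dL_nonneg d c m n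
  have h6 : e * dL d c l n' ≤ (C * Λ ^ (m - 1)) * dL d c m n * (C * Λ ^ (n' - n)) := by
    rw [← h2]
    apply mul_le_mul _ h4 (dL_nonneg _ _ _ _) (by positivity)
    exact mul_le_mul_of_nonneg_right h3 hX
  have h7 : e * Λ ^ n' ≤ C ^ 3 * (Λ ^ l * Λ ^ (m - 1) * Λ ^ (n' - n)) * dL d c m n := by
    calc e * Λ ^ n' ≤ e * (C * Λ ^ l * dL d c l n') := mul_le_mul_of_nonneg_left h5 he0.le
      _ = C * Λ ^ l * (e * dL d c l n') := by ring
      _ ≤ C * Λ ^ l * ((C * Λ ^ (m - 1)) * dL d c m n * (C * Λ ^ (n' - n))) :=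
          mul_le_mul_of_nonneg_left h6 (by positivity)
      _ = _ := by ring
  have h8 : Λ ^ (n - m) * (Λ ^ l * Λ ^ (m - 1) * Λ ^ (n' - n)) ≤ Λ ^ (2 * l) * Λ ^ n' := by
    rw [← pow_add, ← pow_add, ← pow_add, ← pow_add]
    exact pow_le_pow_right₀ hΛ.le (by omega)
  have h9 : 0 < Λ ^ n' := by positivity
  rw [div_mul_eq_mul_div, div_le_iff₀ (by positivity)]
  have h10 : e * Λ ^ (n - m) * Λ ^ n' ≤ dL d c m n * (C ^ 3 * Λ ^ (2 * l)) * Λ ^ n' := by
    calc e * Λ ^ (n - m) * Λ ^ n' = Λ ^ (n - m) * (e * Λ ^ n') := by ring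
      _ ≤ Λ ^ (n - m) * (C ^ 3 * (Λ ^ l * Λ ^ (m - 1) * Λ ^ (n' - n)) * dL d c m n) :=
          mul_le_mul_of_nonneg_left h7 (by positivity)
      _ = C ^ 3 * dL d c m n * (Λ ^ (n - m) * (Λ ^ l * Λ ^ (m - 1) * Λ ^ (n' - n))) := by ring
      _ ≤ C ^ 3 * dL d c m n * (Λ ^ (2 * l) * Λ ^ n') :=
          mul_le_mul_of_nonneg_left h8 (by positivity)
      _ = _ := by ring
  exact le_of_mul_le_mul_right h10 h9

open Pool.Agent.Y298.SH in
/-- growth of the derivatives with respect to the parameter -/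
theorem mis_param {d : ℕ} (hd : 2 ≤ d) {c : ℂ} (hc : c ∈ multibrotSet d)
    (hnp : ∀ p : ℕ, 1 ≤ p → P d p c ≠ 0) {l p : ℕ}
    (hl : 1 ≤ l) (hp : 1 ≤ p) (h : P d (l + p) c = P d l c) {Λ : ℝ} (hΛ : 1 < Λ)
    (hΛp : Λ ^ p = dL d c l (l + p)) :
    ∃ a : ℝ, 0 < a ∧ ∀ᶠ n in atTop, a * Λ ^ n ≤ ‖deriv (P d n) c‖ := by
  obtain ⟨-, a, ha, hlow⟩ := mis_bounds hd hc hnp hl hp h hΛ hΛp
  have hΛ0 : 0 < Λ := by linarith
  have hit : ∀ n, (Pool.Agent.TH279.MD.f d c)^[n] c = P d (n + 1) c := vv_eq_P hd c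
  have hder : ∀ n k, ‖deriv ((Pool.Agent.TH279.MD.f d c)^[k])
      ((Pool.Agent.TH279.MD.f d c)^[n] c)‖ = dL d c (n + 1) (n + 1 + k) := by
    intro n k
    rw [hit]
    exact norm_deriv_iter d c (n + 1) k
  -- uniform expansion
  obtain ⟨M, hM⟩ := pow_unbounded_of_one_lt (2 / a) hΛ
  have hS : SHyp d M c := by
    apply shyp_of_mem hd hc
    intro j
    rw [hder]
    have h1 := hlow (j + 1) (j + 1 + M) (by omega) (by omega)
    rw [Nat.add_sub_cancel_left] at h1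
    rw [div_lt_iff₀ ha] at hM
    linarith
  obtain ⟨S, hSdef⟩ : ∃ S, S = ∑' n, bb d c n := ⟨_, rfl⟩
  have hS0 : 0 < ‖S‖ := by
    rw [norm_pos_iff, hSdef]
    exact hS.trans
  have hlim : Tendsto (fun n => ∑ k ∈ Finset.range (n + 1), bb d c k) atTop (𝓝 S) := by
    rw [hSdef]
    exact (tendsto_add_atTop_iff_nat 1).2 hS.summable_bb.of_norm.hasSum.tendsto_sum_nat
  have hev : ∀ᶠ n in atTop, ‖S‖ / 2 ≤ ‖∑ k ∈ Finset.range (n + 1), bb d c k‖ := by
    filter_upwards [hlim.norm.eventually (lt_mem_nhds (show ‖S‖ / 2 < ‖S‖ by linarith))] with n hn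
    exact hn.le
  have hev' : ∀ᶠ n in atTop, ‖S‖ / 2 * a / Λ * Λ ^ (n + 1) ≤ ‖deriv (P d (n + 1)) c‖ := by
    filter_upwards [hev] with n hn
    have hne : ∀ k ≤ n, deriv ((Pool.Agent.TH279.MD.f d c)^[k]) c ≠ 0 := by
      intro k _
      rw [← norm_pos_iff]
      have h1 := hder 0 k
      rw [Function.iterate_zero, id] at h1
      rw [h1]
      exact dL_pos hd hnp (by omega)
    have h1 := der_sum d hd c n hne
    have h2 : (fun c => (Pool.Agent.TH279.MD.f d c)^[n] c) = P d (n + 1) := by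
      funext c'
      exact vv_eq_P hd c' n
    rw [h2] at h1
    rw [h1.deriv, norm_mul]
    have h3 := hder 0 n
    rw [Function.iterate_zero, id] at h3
    rw [h3]
    have h4 := hlow (0 + 1) (0 + 1 + n) le_rfl (by omega)
    rw [Nat.add_sub_cancel_left] at h4
    have h5 : a * Λ ^ n * (‖S‖ / 2) ≤ dL d c (0 + 1) (0 + 1 + n) *
        ‖∑ k ∈ Finset.range (n + 1), bb d c k‖ :=
      mul_le_mul h4 hn (by positivity) (dL_nonneg _ _ _ _)
    refine le_trans (le_of_eq ?_) h5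
    rw [pow_succ]
    field_simp
  refine ⟨‖S‖ / 2 * a / Λ, by positivity, ?_⟩
  obtain ⟨N, hN⟩ := eventually_atTop.1 hev'
  filter_upwards [eventually_ge_atTop (N + 1)] with n hn
  obtain ⟨n', rfl⟩ : ∃ n', n = n' + 1 := ⟨n - 1, by omega⟩
  exact hN n' (by omega)

end Run7.h495.HM
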