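import Pool.Agent.Y736.HG5
import Pool.Agent.Run7.h495.HM.A7

set_option autoImplicit false

/-! # Harmonic measure and the loop -/

namespace Run7.h495.HM

open Complex Metric Set Filter Topology MeasureTheory Pool.Agent.H712R2 Pool.Agent.H713R2
open N62a1eb23
open Pool.Agent.Y736.HD (Ang vol_Ang_ne Ang_sub)

theorem vol_le_two_pi (ψ : ℂ → ℂ) (c₀ : ℂ) (r : ℝ) :
    (volume (Ang ψ c₀ r)).toReal ≤ 2 * Real.pi := by
  have h1 := ENNReal.toReal_mono (by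
    rw [Real.volume_Ioc]
    exact ENNReal.ofReal_ne_top) (measure_mono (μ := volume) (Ang_sub ψ c₀ r))
  rw [Real.volume_Ioc, ENNReal.toReal_ofReal (by linarith [Real.pi_pos])] at h1
  linarith

/-- uniform control: close points have small escape rate -/
theorem norm_le_two {d : ℕ} (hd : 2 ≤ d) {c₀ : ℂ} (hc₀ : c₀ ∈ multibrotSet d) :
    ∃ δ : ℝ, 0 < δ ∧ δ ≤ 1 ∧ ∀ ψ : ℂ → ℂ, IsExteriorMap (multibrotSet d) ψ → ∀ w : ℂ, 1 < ‖w‖ →
      ‖ψ w - c₀‖ ≤ δ → ‖w‖ ≤ 2 := by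
  obtain ⟨δ, hδ, h⟩ := Pool.Agent.Y736.HG.green_cont hd hc₀ (Real.log_pos one_lt_two)
  refine ⟨min δ 1, by positivity, min_le_right _ _, ?_⟩
  intro ψ hψ w hw hwd
  have h1 := h ψ hψ w hw (hwd.trans (min_le_left _ _))
  exact (Real.log_le_log_iff (by linarith) (by norm_num)).1 h1

/-- power bound of the harmonic measure -/
theorem vol_pow {d : ℕ} (hd : 2 ≤ d) {c₀ : ℂ} (hc₀ : c₀ ∈ multibrotSet d) {K s : ℝ} (hK : 0 < K)
    (hs : 0 < s) : ∃ K' : ℝ, 0 < K' ∧ ∀ ψ : ℂ → ℂ, IsExteriorMap (multibrotSet d) ψ →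
      (∀ w : ℂ, 1 < ‖w‖ → ‖w‖ ≤ 2 → ‖w‖ - 1 ≤ K * ‖ψ w - c₀‖ ^ s) →
      ∀ r : ℝ, 0 < r → (volume (Ang ψ c₀ r)).toReal ≤ K' * r ^ s := by
  obtain ⟨δ, hδ, -, hδ2⟩ := norm_le_two hd hc₀
  have hpi := Real.pi_pos
  have hlog2 : 0 < Real.log 2 := Real.log_pos (by norm_num)
  refine ⟨2 * Real.pi * (K * 2 ^ s) / Real.log 2 + 2 * Real.pi * (2 / δ) ^ s, by positivity, ?_⟩
  intro ψ hψ h r hr
  rcases le_or_gt (2 * r) δ with h1 | h1
  · have h2 := Pool.Agent.Y736.HG.vol_le hd hψ hc₀ hr (S := K * (2 * r) ^ s) (by positivity)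
      (fun w hw hwr => by
        have h3 := h w hw (hδ2 ψ hψ w hw (hwr.trans h1))
        have h4 := Real.log_le_sub_one_of_pos (show 0 < ‖w‖ by linarith)
        have h5 : ‖ψ w - c₀‖ ^ s ≤ (2 * r) ^ s := Real.rpow_le_rpow (norm_nonneg _) hwr hs.le
        have h6 := mul_le_mul_of_nonneg_left h5 hK.le
        linarith)
    rw [Real.mul_rpow (by norm_num) hr.le] at h2
    have h3 : 0 ≤ 2 * Real.pi * (2 / δ) ^ s * r ^ s := by positivity
    calc _ ≤ 2 * Real.pi * (K * (2 ^ s * r ^ s)) / Real.log 2 := h2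
      _ ≤ 2 * Real.pi * (K * (2 ^ s * r ^ s)) / Real.log 2 + 2 * Real.pi * (2 / δ) ^ s * r ^ s := by
          linarith
      _ = _ := by ring
  · have h2 := vol_le_two_pi ψ c₀ r
    have h3 : 1 ≤ (2 / δ * r) ^ s := by
      apply Real.one_le_rpow _ hs.le
      rw [div_mul_eq_mul_div, le_div_iff₀ hδ]
      linarith
    rw [Real.mul_rpow (by positivity) hr.le] at h3
    have h4 : 0 ≤ 2 * Real.pi * (K * 2 ^ s) / Real.log 2 * r ^ s := by positivity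
    calc _ ≤ 2 * Real.pi * 1 := by linarith
      _ ≤ 2 * Real.pi * ((2 / δ) ^ s * r ^ s) := by gcongr
      _ ≤ 2 * Real.pi * (K * 2 ^ s) / Real.log 2 * r ^ s +
          2 * Real.pi * ((2 / δ) ^ s * r ^ s) := by linarith
      _ = _ := by ring

/-- stretched exponential bound of the harmonic measure -/
theorem vol_exp {d : ℕ} (hd : 2 ≤ d) {c₀ : ℂ} (hc₀ : c₀ ∈ multibrotSet d) {K A : ℝ} (hK : 0 < K)
    (hA : 0 < A) : ∃ K' A' : ℝ, 0 < K' ∧ 0 < A' ∧ ∀ ψ : ℂ → ℂ,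
      IsExteriorMap (multibrotSet d) ψ →
      (∀ w : ℂ, 1 < ‖w‖ → ‖w‖ ≤ 2 → ‖w‖ - 1 ≤ K * Real.exp (-(A / √‖ψ w - c₀‖))) →
      ∀ r : ℝ, 0 < r → (volume (Ang ψ c₀ r)).toReal ≤ K' * Real.exp (-(A' / √r)) := by
  obtain ⟨δ, hδ, -, hδ2⟩ := norm_le_two hd hc₀
  have hpi := Real.pi_pos
  have hlog2 : 0 < Real.log 2 := Real.log_pos (by norm_num)
  have h20 : (0 : ℝ) < √2 := Real.sqrt_pos.2 (by norm_num)
  obtain ⟨A', hA'⟩ : ∃ A', A' = A / √2 := ⟨_, rfl⟩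
  have hA'0 : 0 < A' := by rw [hA']; positivity
  refine ⟨2 * Real.pi * K / Real.log 2 + 2 * Real.pi * Real.exp (A' / √(δ / 2)), A',
    by positivity, hA'0, ?_⟩
  intro ψ hψ h r hr
  have hr0 : 0 < √r := Real.sqrt_pos.2 hr
  rcases le_or_gt (2 * r) δ with h1 | h1
  · have h2 := Pool.Agent.Y736.HG.vol_le hd hψ hc₀ hr (S := K * Real.exp (-(A' / √r)))
      (by positivity)
      (fun w hw hwr => by
        have h3 := h w hw (hδ2 ψ hψ w hw (hwr.trans h1))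
        have h4 := Real.log_le_sub_one_of_pos (show 0 < ‖w‖ by linarith)
        have h0 := ne_param hc₀ hψ hw
        have h5 : A' / √r ≤ A / √‖ψ w - c₀‖ := by
          have h6 : √‖ψ w - c₀‖ ≤ √2 * √r := by
            rw [← Real.sqrt_mul (by norm_num)]
            exact Real.sqrt_le_sqrt hwr
          rw [hA', div_div]
          exact div_le_div_of_nonneg_left hA.le (Real.sqrt_pos.2 h0) h6
        have h6 : Real.exp (-(A / √‖ψ w - c₀‖)) ≤ Real.exp (-(A' / √r)) :=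
          Real.exp_le_exp.2 (neg_le_neg h5)
        have h7 := mul_le_mul_of_nonneg_left h6 hK.le
        linarith)
    have h3 : 0 ≤ 2 * Real.pi * Real.exp (A' / √(δ / 2)) * Real.exp (-(A' / √r)) := by positivity
    calc _ ≤ 2 * Real.pi * (K * Real.exp (-(A' / √r))) / Real.log 2 := h2
      _ ≤ 2 * Real.pi * (K * Real.exp (-(A' / √r))) / Real.log 2 +
          2 * Real.pi * Real.exp (A' / √(δ / 2)) * Real.exp (-(A' / √r)) := by linarith
      _ = _ := by ring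
  · have h2 := vol_le_two_pi ψ c₀ r
    have h3 : 1 ≤ Real.exp (A' / √(δ / 2)) * Real.exp (-(A' / √r)) := by
      rw [← Real.exp_add]
      apply Real.one_le_exp
      have h4 : √(δ / 2) ≤ √r := Real.sqrt_le_sqrt (by linarith)
      have h5 : A' / √r ≤ A' / √(δ / 2) :=
        div_le_div_of_nonneg_left hA'0.le (Real.sqrt_pos.2 (by positivity)) h4
      linarith
    have h4 : 0 ≤ 2 * Real.pi * K / Real.log 2 * Real.exp (-(A' / √r)) := by positivity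
    calc _ ≤ 2 * Real.pi * 1 := by linarith
      _ ≤ 2 * Real.pi * (Real.exp (A' / √(δ / 2)) * Real.exp (-(A' / √r))) := by gcongr
      _ ≤ 2 * Real.pi * K / Real.log 2 * Real.exp (-(A' / √r)) +
          2 * Real.pi * (Real.exp (A' / √(δ / 2)) * Real.exp (-(A' / √r))) := by linarith
      _ = _ := by ring

/-- if the loop moves little on an arc, the harmonic measure is large -/
theorem loop_gen {c₀ : ℂ} {ψ F : ℂ → ℂ} (hF : ContinuousOn F {w | 1 ≤ ‖w‖})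
    (hE : ∀ w, 1 < ‖w‖ → F w = ψ w) {ζ : ℂ} (hζ : ‖ζ‖ = 1) (hFζ : F ζ = c₀) {δ R : ℝ}
    (hδ0 : 0 < δ) (hδ1 : δ ≤ 1)
    (hcon : ∀ ξ : ℂ, ‖ξ‖ = 1 → ‖ξ - ζ‖ ≤ δ → ‖F ξ - F ζ‖ < R) :
    δ ≤ (volume (Ang ψ c₀ R)).toReal := by
  have hpi := Real.pi_gt_three
  -- the angle of `ζ`
  obtain ⟨θ₀, hθ₀, hθζ⟩ : ∃ θ₀ : ℝ, θ₀ ∈ Ioc 0 (2 * Real.pi) ∧ exp (θ₀ * I) = ζ := by
    have h1 : exp ((arg ζ : ℝ) * I) = ζ := by
      have := Complex.norm_mul_exp_arg_mul_I ζ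
      rwa [hζ, ofReal_one, one_mul] at this
    rcases le_or_gt (arg ζ) 0 with h2 | h2
    · refine ⟨arg ζ + 2 * Real.pi, ⟨?_, by linarith⟩, ?_⟩
      · have := Complex.neg_pi_lt_arg ζ
        linarith
      · push_cast
        rw [add_mul, Complex.exp_add, Complex.exp_two_pi_mul_I, mul_one]
        exact h1
    · exact ⟨arg ζ, ⟨h2, by linarith [Complex.arg_le_pi ζ]⟩, h1⟩
  -- an interval of angles
  have hsub : ∀ θ : ℝ, 0 < θ → θ ≤ 2 * Real.pi → |θ - θ₀| ≤ δ → θ ∈ Ang ψ c₀ R := by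
    intro θ hθ0 hθ1 hθ
    refine ⟨⟨hθ0, hθ1⟩, F (exp (θ * I)), ?_, ?_⟩
    · rw [mem_ball, dist_eq_norm, ← hFζ]
      apply hcon
      · exact Complex.norm_exp_ofReal_mul_I θ
      · rw [← hθζ]
        have h1 : exp (θ * I) - exp (θ₀ * I) = exp (θ₀ * I) * (exp (I * ((θ - θ₀ : ℝ) : ℂ)) - 1) := by
          rw [mul_sub, ← Complex.exp_add, mul_one]
          congr 2
          push_cast
          ring
        rw [h1, norm_mul, Complex.norm_exp_ofReal_mul_I, one_mul]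
        refine (Real.norm_exp_I_mul_ofReal_sub_one_le).trans ?_
        rwa [Real.norm_eq_abs]
    · have h1 : ContinuousWithinAt F {w | 1 ≤ ‖w‖} (exp (θ * I)) :=
        hF _ (by
          show 1 ≤ ‖exp (θ * I)‖
          rw [Complex.norm_exp_ofReal_mul_I])
      have h2 : Tendsto (fun ρ : ℝ => (ρ : ℂ) * exp (θ * I)) (𝓝[>] 1)
          (𝓝[{w | 1 ≤ ‖w‖}] (exp (θ * I))) := by
        rw [tendsto_nhdsWithin_iff]
        refine ⟨?_, ?_⟩
        · have h3 : Continuous fun ρ : ℝ => (ρ : ℂ) * exp (θ * I) := by fun_prop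
          have h4 := (h3.tendsto 1).mono_left (nhdsWithin_le_nhds (s := Ioi (1 : ℝ)))
          simpa using h4
        · filter_upwards [self_mem_nhdsWithin] with ρ hρ
          have hρ' : 1 < ρ := hρ
          show 1 ≤ ‖(ρ : ℂ) * exp (θ * I)‖
          rw [norm_mul, Complex.norm_exp_ofReal_mul_I, mul_one, Complex.norm_real,
            Real.norm_of_nonneg (by linarith)]
          exact hρ'.le
      refine (h1.tendsto.comp h2).congr' ?_
      filter_upwards [self_mem_nhdsWithin] with ρ hρ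
      have hρ' : 1 < ρ := hρ
      apply hE
      rw [norm_mul, Complex.norm_exp_ofReal_mul_I, mul_one, Complex.norm_real,
        Real.norm_of_nonneg (by linarith)]
      exact hρ'
  rcases le_or_gt δ θ₀ with h | h
  · have h1 : Ioc (θ₀ - δ) θ₀ ⊆ Ang ψ c₀ R := by
      intro θ hθ
      apply hsub θ (by linarith [hθ.1]) (hθ.2.trans hθ₀.2)
      rw [abs_le]
      constructor <;> linarith [hθ.1, hθ.2]
    have h2 := ENNReal.toReal_mono (vol_Ang_ne ψ c₀ R) (measure_mono h1)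
    rw [Real.volume_Ioc, ENNReal.toReal_ofReal (by linarith)] at h2
    linarith
  · have h1 : Ioc θ₀ (θ₀ + δ) ⊆ Ang ψ c₀ R := by
      intro θ hθ
      apply hsub θ (by linarith [hθ.1, hθ₀.1]) (by linarith [hθ.2])
      rw [abs_le]
      constructor <;> linarith [hθ.1, hθ.2]
    have h2 := ENNReal.toReal_mono (vol_Ang_ne ψ c₀ R) (measure_mono h1)
    rw [Real.volume_Ioc, ENNReal.toReal_ofReal (by linarith)] at h2
    linarith

/-- the loop moves fast: power case -/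
theorem loop_pow {c₀ : ℂ} {ψ F : ℂ → ℂ} (hF : ContinuousOn F {w | 1 ≤ ‖w‖})
    (hE : ∀ w, 1 < ‖w‖ → F w = ψ w) {ζ : ℂ} (hζ : ‖ζ‖ = 1) (hFζ : F ζ = c₀) {K s : ℝ}
    (hK : 0 < K) (hs : 0 < s)
    (hvol : ∀ r : ℝ, 0 < r → (volume (Ang ψ c₀ r)).toReal ≤ K * r ^ s) {δ : ℝ} (hδ0 : 0 < δ)
    (hδ1 : δ ≤ 1) :
    ∃ ξ : ℂ, ‖ξ‖ = 1 ∧ ‖ξ - ζ‖ ≤ δ ∧ (1 / (2 * K)) ^ (1 / s) * δ ^ (1 / s) ≤ ‖F ξ - F ζ‖ := by
  by_contra hcon
  push Not at hcon
  have h1 := loop_gen hF hE hζ hFζ hδ0 hδ1 hcon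
  have h2 := h1.trans (hvol _ (by positivity))
  rw [← Real.mul_rpow (by positivity) hδ0.le, ← Real.rpow_mul (by positivity),
    one_div_mul_cancel hs.ne', Real.rpow_one] at h2
  have h3 : K * (1 / (2 * K) * δ) = δ / 2 := by field_simp
  rw [h3] at h2
  linarith

/-- the loop moves fast: exponential case -/
theorem loop_exp {c₀ : ℂ} {ψ F : ℂ → ℂ} (hF : ContinuousOn F {w | 1 ≤ ‖w‖})
    (hE : ∀ w, 1 < ‖w‖ → F w = ψ w) {ζ : ℂ} (hζ : ‖ζ‖ = 1) (hFζ : F ζ = c₀) {K A : ℝ}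
    (hK : 1 ≤ K) (hA : 0 < A)
    (hvol : ∀ r : ℝ, 0 < r → (volume (Ang ψ c₀ r)).toReal ≤ K * Real.exp (-(A / √r))) {δ : ℝ}
    (hδ0 : 0 < δ) (hδ1 : δ ≤ 1) :
    ∃ ξ : ℂ, ‖ξ‖ = 1 ∧ ‖ξ - ζ‖ ≤ δ ∧ (A / Real.log (2 * K / δ)) ^ 2 ≤ ‖F ξ - F ζ‖ := by
  by_contra hcon
  push Not at hcon
  have h1 := loop_gen hF hE hζ hFζ hδ0 hδ1 hcon
  have hKδ : 1 < 2 * K / δ := by
    rw [lt_div_iff₀ hδ0]
    linarith
  have hlog : 0 < Real.log (2 * K / δ) := Real.log_pos hKδ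
  have h2 := h1.trans (hvol _ (by positivity))
  rw [Real.sqrt_sq (by positivity)] at h2
  have h3 : A / (A / Real.log (2 * K / δ)) = Real.log (2 * K / δ) := by
    field_simp
  rw [h3, Real.exp_neg, Real.exp_log (by positivity)] at h2
  have h4 : K * (2 * K / δ)⁻¹ = δ / 2 := by
    field_simp
  rw [h4] at h2
  linarith

/-- lower bound of the harmonic measure -/
theorem vol_low {d : ℕ} (hd : 2 ≤ d) {c₀ : ℂ} (hc₀ : c₀ ∈ multibrotSet d) {a L K : ℝ}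
    (ha : 0 < a) (hL : 1 < L) (hK : 0 < K)
    (hD : ∀ᶠ n in atTop, a * L ^ n ≤ ‖deriv (P d n) c₀‖) :
    ∃ k : ℝ, 0 < k ∧ ∀ ψ : ℂ → ℂ, IsExteriorMap (multibrotSet d) ψ →
      (∀ᵐ θ : ℝ, ∃ ζ : ℂ, Tendsto (fun ρ : ℝ => ψ (ρ * exp (θ * I))) (𝓝[>] 1) (𝓝 ζ)) →
      (∀ w : ℂ, 1 < ‖w‖ → ‖w‖ ≤ 2 →
        ‖w‖ - 1 ≤ K * ‖ψ w - c₀‖ ^ (Real.log d / Real.log L)) → ∀ r : ℝ, 0 < r → r ≤ 1 →
        k * r ^ (Real.log d / Real.log L) ≤ (volume (Ang ψ c₀ r)).toReal := by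
  obtain ⟨n₀, hn₀⟩ := eventually_atTop.1 hD
  obtain ⟨δ, hδ, hδ1, hδ2⟩ := norm_le_two hd hc₀
  have hpi := Real.pi_pos
  have hlogL : 0 < Real.log L := Real.log_pos hL
  have hd0 : (0 : ℝ) < d := by exact_mod_cast (by omega : 0 < d)
  have hd1 : (1 : ℝ) < d := by exact_mod_cast (by omega : 1 < d)
  have hlogd : 0 < Real.log d := Real.log_pos hd1
  obtain ⟨s, hs⟩ : ∃ s, s = Real.log d / Real.log L := ⟨_, rfl⟩
  have hs0 : 0 < s := by rw [hs]; positivity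
  rw [← hs]
  have hLs : ∀ n : ℕ, (d : ℝ) ^ n = (L ^ n) ^ s := by
    intro n
    rw [← Real.rpow_natCast L n, ← Real.rpow_mul (by linarith), ← Real.rpow_natCast (d : ℝ) n]
    rw [Real.rpow_def_of_pos hd0, Real.rpow_def_of_pos (by linarith), hs]
    congr 1
    field_simp
  obtain ⟨e1, he1⟩ : ∃ e1, e1 = Real.exp 1 := ⟨_, rfl⟩
  have he10 : 0 < e1 := by rw [he1]; exact Real.exp_pos 1
  have he11 : 1 ≤ e1 := by rw [he1]; exact Real.one_le_exp (by norm_num)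
  -- `d^m ≤ (B / ρ)^s` at the right time
  obtain ⟨B, hB⟩ : ∃ B, B = (4 * e1 + a) / a * L ^ (n₀ + 1) := ⟨_, rfl⟩
  have hB0 : 0 < B := by rw [hB]; positivity
  have key : ∀ ρ : ℝ, 0 < ρ → ρ ≤ 1 → ∃ m : ℕ, deriv (P d (m + 1)) c₀ ≠ 0 ∧
      (1 / B) ^ s * ρ ^ s ≤
        (Real.log (ρ * ‖deriv (P d (m + 1)) c₀‖) - Real.log 4) / (d : ℝ) ^ m := by
    intro ρ hρ hρ1
    obtain ⟨n, hn1, hn2⟩ := exists_nat_pow_near (x := (4 * e1 + a) / (a * ρ)) (y := L) (by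
      rw [le_div_iff₀ (by positivity)]
      nlinarith) hL
    obtain ⟨m, hm⟩ : ∃ m, m = n + n₀ := ⟨_, rfl⟩
    have h1 : 4 * e1 < ρ * ‖deriv (P d (m + 1)) c₀‖ := by
      have h2 := hn₀ (m + 1) (by omega)
      have h3 : L ^ (n + 1) ≤ L ^ (m + 1) := pow_le_pow_right₀ hL.le (by omega)
      have h4 : (4 * e1 + a) / (a * ρ) < L ^ (m + 1) := hn2.trans_le h3
      rw [div_lt_iff₀ (by positivity)] at h4
      have h5 : ρ * (a * L ^ (m + 1)) ≤ ρ * ‖deriv (P d (m + 1)) c₀‖ :=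
        mul_le_mul_of_nonneg_left h2 hρ.le
      linarith
    refine ⟨m, ?_, ?_⟩
    · intro h0
      rw [h0, norm_zero, mul_zero] at h1
      linarith
    · have h2 : 1 ≤ Real.log (ρ * ‖deriv (P d (m + 1)) c₀‖) - Real.log 4 := by
        have h3 := Real.log_le_log (by positivity) h1.le
        rw [Real.log_mul (by norm_num) he10.ne', he1, Real.log_exp] at h3
        linarith
      have h3 : (d : ℝ) ^ m ≤ (B / ρ) ^ s := by
        rw [hLs m]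
        apply Real.rpow_le_rpow (by positivity) _ hs0.le
        rw [hm, hB, pow_add]
        have h7 : L ^ n * L ^ n₀ ≤ (4 * e1 + a) / (a * ρ) * L ^ n₀ :=
          mul_le_mul_of_nonneg_right hn1 (by positivity)
        refine h7.trans ?_
        have e : (4 * e1 + a) / a * L ^ (n₀ + 1) / ρ = (4 * e1 + a) / (a * ρ) * L ^ (n₀ + 1) := by
          field_simp
        rw [e]
        apply mul_le_mul_of_nonneg_left _ (by positivity)
        exact pow_le_pow_right₀ hL.le (by omega)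
      rw [le_div_iff₀ (by positivity)]
      have h4 : (1 / B) ^ s * ρ ^ s * (B / ρ) ^ s = 1 := by
        rw [← Real.mul_rpow (by positivity) hρ.le, ← Real.mul_rpow (by positivity) (by positivity)]
        have : 1 / B * ρ * (B / ρ) = 1 := by field_simp
        rw [this, Real.one_rpow]
      calc (1 / B) ^ s * ρ ^ s * (d : ℝ) ^ m ≤ (1 / B) ^ s * ρ ^ s * (B / ρ) ^ s :=
            mul_le_mul_of_nonneg_left h3 (by positivity)
        _ = 1 := h4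
        _ ≤ _ := h2
  obtain ⟨k₁, hk₁⟩ : ∃ k₁, k₁ = (1 / B) ^ s := ⟨_, rfl⟩
  have hk₁0 : 0 < k₁ := by rw [hk₁]; positivity
  rw [← hk₁] at key
  -- the small ratio
  obtain ⟨t, ht0, ht1, htδ, htK⟩ : ∃ t : ℝ, 0 < t ∧ t < 1 ∧ t ≤ δ ∧ K * t ^ s ≤ k₁ / 2 := by
    have h1 : Tendsto (fun t : ℝ => K * t ^ s) (𝓝[>] 0) (𝓝 (K * 0 ^ s)) :=
      (((Real.continuousAt_rpow_const 0 s (Or.inr hs0.le)).tendsto.mono_left
        nhdsWithin_le_nhds).const_mul K)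
    rw [Real.zero_rpow hs0.ne', mul_zero] at h1
    have h2 := h1.eventually (gt_mem_nhds (show (0 : ℝ) < k₁ / 2 by positivity))
    have h3 : ∀ᶠ t : ℝ in 𝓝[>] 0, t < min 1 δ :=
      nhdsWithin_le_nhds (gt_mem_nhds (show (0 : ℝ) < min 1 δ by positivity))
    obtain ⟨t, ht1, ht2, ht3⟩ := (h2.and (h3.and self_mem_nhdsWithin)).exists
    exact ⟨t, ht3, ht2.trans_le (min_le_left _ _), (ht2.trans_le (min_le_right _ _)).le, ht1.le⟩
  have hlogt : 0 < Real.log (1 / t) := by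
    apply Real.log_pos
    rw [lt_div_iff₀ ht0]
    linarith
  refine ⟨k₁ / 2 * (1 / 2) ^ s * (2 * Real.pi) / Real.log (1 / t), by positivity, ?_⟩
  intro ψ hψ hae hup r hr hr1
  obtain ⟨ρ, hρ⟩ : ∃ ρ, ρ = r / 2 := ⟨_, rfl⟩
  have hρ0 : 0 < ρ := by rw [hρ]; positivity
  have hρr : ρ < r := by rw [hρ]; linarith
  have hρ1 : ρ ≤ 1 := by linarith
  obtain ⟨m, hm1, hm2⟩ := key ρ hρ0 hρ1
  have htρ : t * ρ < ρ := by nlinarith
  have h1 := Pool.Agent.Y736.HG.le_vol hd hψ hae hc₀ (ρ' := t * ρ) (by positivity) htρ hρr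
    (S := K * (t * ρ) ^ s) (by positivity) (fun w hw hwr => by
      have h2 : ‖w‖ ≤ 2 := hδ2 ψ hψ w hw (hwr.trans (by nlinarith))
      have h3 := hup w hw h2
      have h4 := Real.log_le_sub_one_of_pos (show 0 < ‖w‖ by linarith)
      have h5 : ‖ψ w - c₀‖ ^ s ≤ (t * ρ) ^ s := Real.rpow_le_rpow (norm_nonneg _) hwr hs0.le
      have h6 := mul_le_mul_of_nonneg_left h5 hK.le
      linarith) hm1
  have h2 : K * (t * ρ) ^ s ≤ k₁ / 2 * ρ ^ s := by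
    rw [Real.mul_rpow ht0.le hρ0.le, ← mul_assoc]
    exact mul_le_mul_of_nonneg_right htK (by positivity)
  have h3 : ρ / (t * ρ) = 1 / t := by field_simp
  rw [h3] at h1
  have h4 : k₁ / 2 * ρ ^ s ≤ Real.log (1 / t) * (volume (Ang ψ c₀ r)).toReal / (2 * Real.pi) := by
    linarith
  rw [le_div_iff₀ (by positivity)] at h4
  rw [div_mul_eq_mul_div, div_le_iff₀ hlogt]
  have h5 : r ^ s * (1 / 2) ^ s = ρ ^ s := by
    rw [← Real.mul_rpow hr.le (by norm_num), hρ]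
    congr 1
    ring
  calc k₁ / 2 * (1 / 2) ^ s * (2 * Real.pi) * r ^ s = k₁ / 2 * (r ^ s * (1 / 2) ^ s) *
        (2 * Real.pi) := by ring
    _ = k₁ / 2 * ρ ^ s * (2 * Real.pi) := by rw [h5]
    _ ≤ _ := by linarith

end Run7.h495.HM
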