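import Pool.Agent.Y736.HG7
import Pool.Agent.Run7.h495.HM.A8

set_option autoImplicit false

/-! # The local moduli of the exterior map -/

namespace Run7.h495.HM

open Complex Metric Set Filter Topology MeasureTheory Pool.Agent.H712R2 Pool.Agent.H713R2
open N62a1eb23
open Pool.Agent.Y736.HD (Ang vol_Ang_ne Ang_sub)

/-- the escape rate, the harmonic measure and the loop near `c₀` -/
def Flat (ψ : ℂ → ℂ) (c₀ : ℂ) (η ω : ℝ → ℝ) : Prop :=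
  (∀ w : ℂ, 1 < ‖w‖ → ‖w‖ ≤ 2 → ‖w‖ - 1 ≤ η ‖ψ w - c₀‖) ∧
  (∀ r : ℝ, 0 < r → (volume (Ang ψ c₀ r)).toReal ≤ η r) ∧
  ∀ F : ℂ → ℂ, ContinuousOn F {w : ℂ | 1 ≤ ‖w‖} → (∀ w : ℂ, 1 < ‖w‖ → F w = ψ w) →
    ∀ ζ : ℂ, ‖ζ‖ = 1 → F ζ = c₀ → ∀ δ : ℝ, 0 < δ → δ ≤ 1 →
      ∃ ξ : ℂ, ‖ξ‖ = 1 ∧ ‖ξ - ζ‖ ≤ δ ∧ ω δ ≤ ‖F ξ - F ζ‖

theorem bound_of {d : ℕ} {c₀ : ℂ} {C L : ℝ} (hL : 1 ≤ L)
    (h : ∀ m n, ‖deriv ((fc d c₀)^[n]) (P d m c₀)‖ ≤ C * L ^ n) :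
    ∃ C' : ℝ, 0 < C' ∧ ∀ m n, m ≤ n → dL d c₀ m n ≤ C' * L ^ (n - m) := by
  refine ⟨max C 1, by positivity, ?_⟩
  intro m n hmn
  obtain ⟨k, rfl⟩ := Nat.exists_eq_add_of_le hmn
  rw [← norm_deriv_iter, Nat.add_sub_cancel_left]
  refine (h m k).trans ?_
  apply mul_le_mul_of_nonneg_right (le_max_left _ _) (by positivity)

theorem bound_of' {d : ℕ} (hd : 2 ≤ d) {c₀ : ℂ} (hc₀ : c₀ ∈ multibrotSet d) {L : ℝ} (hL : 1 ≤ L)
    (h : (∃ C : ℝ, ∀ m n, ‖deriv ((fc d c₀)^[n]) (P d m c₀)‖ ≤ C * L ^ n) ∨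
      ∃ N : ℕ, 1 ≤ N ∧ ∀ᶠ m in atTop, ‖deriv ((fc d c₀)^[N]) (P d m c₀)‖ ≤ L ^ N) :
    ∃ C' : ℝ, 0 < C' ∧ ∀ m n, m ≤ n → dL d c₀ m n ≤ C' * L ^ (n - m) := by
  rcases h with ⟨C, h⟩ | ⟨N, hN, h⟩
  · exact bound_of hL h
  · refine dL_of_eventually hd hc₀ hN hL ?_
    filter_upwards [h] with m hm
    rwa [← norm_deriv_iter]

/-- the power case -/
theorem flat_pow {d : ℕ} (hd : 2 ≤ d) {c₀ : ℂ} (hc₀ : c₀ ∈ multibrotSet d) {C L : ℝ} (hL : 1 < L)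
    (hC : 0 < C) (h : ∀ m n, m ≤ n → dL d c₀ m n ≤ C * L ^ (n - m)) :
    ∃ K : ℝ, 0 < K ∧ ∀ ψ : ℂ → ℂ, IsExteriorMap (multibrotSet d) ψ →
      Flat ψ c₀ (fun r => K * r ^ (Real.log d / Real.log L))
        (fun δ => δ ^ (Real.log L / Real.log d) / K) := by
  have hd1 : (1 : ℝ) < d := by exact_mod_cast (by omega : 1 < d)
  have hlogd : 0 < Real.log d := Real.log_pos hd1
  have hlogL : 0 < Real.log L := Real.log_pos hL
  obtain ⟨s, hs⟩ : ∃ s, s = Real.log d / Real.log L := ⟨_, rfl⟩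
  have hs0 : 0 < s := by rw [hs]; positivity
  have hs1 : Real.log L / Real.log d = 1 / s := by rw [hs, one_div_div]
  obtain ⟨K, hK, hup⟩ := upper_pow hd hc₀ hL hC h
  rw [hs1, ← hs]
  rw [← hs] at hup
  obtain ⟨K', hK', hvol⟩ := vol_pow hd hc₀ hK hs0
  obtain ⟨k, hk⟩ : ∃ k, k = (1 / (2 * K')) ^ (1 / s) := ⟨_, rfl⟩
  have hk0 : 0 < k := by rw [hk]; positivity
  refine ⟨max (max K K') (1 / k), by positivity, ?_⟩
  intro ψ hψ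
  have hv := hvol ψ hψ (hup ψ hψ)
  refine ⟨?_, ?_, ?_⟩
  · intro w hw hw2
    refine (hup ψ hψ w hw hw2).trans ?_
    exact mul_le_mul_of_nonneg_right ((le_max_left K K').trans (le_max_left _ _)) (by positivity)
  · intro r hr
    refine (hv r hr).trans ?_
    exact mul_le_mul_of_nonneg_right ((le_max_right K K').trans (le_max_left _ _)) (by positivity)
  · intro F hF hE ζ hζ hFζ δ hδ0 hδ1
    obtain ⟨ξ, h1, h2, h3⟩ := loop_pow hF hE hζ hFζ hK' hs0 hv hδ0 hδ1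
    refine ⟨ξ, h1, h2, le_trans ?_ h3⟩
    rw [← hk, div_le_iff₀ (by positivity)]
    have h4 : 1 ≤ k * max (max K K') (1 / k) := by
      have h5 : k * (1 / k) ≤ k * max (max K K') (1 / k) :=
        mul_le_mul_of_nonneg_left (le_max_right _ _) hk0.le
      rwa [mul_one_div_cancel hk0.ne'] at h5
    have h5 : 0 < δ ^ (1 / s) := by positivity
    nlinarith

/-- the stretched exponential case -/
theorem flat_exp {d : ℕ} (hd : 2 ≤ d) {c₀ : ℂ} (hc₀ : c₀ ∈ multibrotSet d) {C : ℝ}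
    (h : ∀ m n, m ≤ n → dL d c₀ m n ≤ C) :
    ∃ K A : ℝ, 1 < K ∧ 0 < A ∧ ∀ ψ : ℂ → ℂ, IsExteriorMap (multibrotSet d) ψ →
      Flat ψ c₀ (fun r => K * Real.exp (-(A / √r))) (fun δ => (A / Real.log (K / δ)) ^ 2) := by
  have hd1 : (1 : ℝ) < d := by exact_mod_cast (by omega : 1 < d)
  obtain ⟨A, hA, hup⟩ := upper_exp hd hc₀ h
  obtain ⟨K', A', hK', hA', hvol⟩ := vol_exp hd hc₀ (K := 3 * d ^ 2) (by positivity) hA
  obtain ⟨K₂, hK₂⟩ : ∃ K₂, K₂ = max K' 1 := ⟨_, rfl⟩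
  have hK₂1 : 1 ≤ K₂ := by rw [hK₂]; exact le_max_right _ _
  have hK₂' : K' ≤ K₂ := by rw [hK₂]; exact le_max_left _ _
  obtain ⟨K, hKdef⟩ : ∃ K, K = max (3 * (d : ℝ) ^ 2) (2 * K₂) := ⟨_, rfl⟩
  have hKa : 3 * (d : ℝ) ^ 2 ≤ K := by rw [hKdef]; exact le_max_left _ _
  have hKb : 2 * K₂ ≤ K := by rw [hKdef]; exact le_max_right _ _
  obtain ⟨B, hB⟩ : ∃ B, B = min A A' := ⟨_, rfl⟩
  have hB0 : 0 < B := by rw [hB]; positivity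
  have hBA : B ≤ A := by rw [hB]; exact min_le_left _ _
  have hBA' : B ≤ A' := by rw [hB]; exact min_le_right _ _
  have hexp : ∀ A₁ : ℝ, B ≤ A₁ → ∀ r : ℝ, Real.exp (-(A₁ / √r)) ≤ Real.exp (-(B / √r)) := by
    intro A₁ h1 r
    apply Real.exp_le_exp.2
    apply neg_le_neg
    exact div_le_div_of_nonneg_right h1 (Real.sqrt_nonneg r)
  refine ⟨K, B, by linarith, hB0, ?_⟩
  intro ψ hψ
  have hv := hvol ψ hψ (hup ψ hψ)
  have hv' : ∀ r : ℝ, 0 < r →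
      (volume (Ang ψ c₀ r)).toReal ≤ K₂ * Real.exp (-(A' / √r)) := by
    intro r hr
    exact (hv r hr).trans (mul_le_mul_of_nonneg_right hK₂' (Real.exp_pos _).le)
  refine ⟨?_, ?_, ?_⟩
  · intro w hw hw2
    refine (hup ψ hψ w hw hw2).trans ?_
    exact mul_le_mul hKa (hexp A hBA _) (Real.exp_pos _).le (by linarith)
  · intro r hr
    refine (hv' r hr).trans ?_
    exact mul_le_mul (by linarith) (hexp A' hBA' _) (Real.exp_pos _).le (by linarith)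
  · intro F hF hE ζ hζ hFζ δ hδ0 hδ1
    obtain ⟨ξ, h1, h2, h3⟩ := loop_exp hF hE hζ hFζ hK₂1 hA' hv' hδ0 hδ1
    refine ⟨ξ, h1, h2, le_trans ?_ h3⟩
    have h4 : 1 < 2 * K₂ / δ := by
      rw [lt_div_iff₀ hδ0]
      linarith
    have h5 : 0 < Real.log (2 * K₂ / δ) := Real.log_pos h4
    have h6 : Real.log (2 * K₂ / δ) ≤ Real.log (K / δ) := by
      apply Real.log_le_log (by positivity)
      exact div_le_div_of_nonneg_right hKb hδ0.le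
    have h7 : B / Real.log (K / δ) ≤ A' / Real.log (2 * K₂ / δ) :=
      div_le_div₀ hA'.le hBA' h5 h6
    exact pow_le_pow_left₀ (div_nonneg hB0.le (h5.le.trans h6)) h7 2

/-- the sharp two-sided power law -/
theorem sharp_pow {d : ℕ} (hd : 2 ≤ d) {c₀ : ℂ} (hc₀ : c₀ ∈ multibrotSet d) {C L a : ℝ}
    (hL : 1 < L) (hC : 0 < C) (h : ∀ m n, m ≤ n → dL d c₀ m n ≤ C * L ^ (n - m)) (ha : 0 < a)
    (hD : ∀ᶠ n in atTop, a * L ^ n ≤ ‖deriv (P d n) c₀‖) :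
    ∃ K : ℝ, 0 < K ∧ ∀ ψ : ℂ → ℂ, IsExteriorMap (multibrotSet d) ψ →
      Flat ψ c₀ (fun r => K * r ^ (Real.log d / Real.log L))
        (fun δ => δ ^ (Real.log L / Real.log d) / K) ∧
      ∀ r : ℝ, 0 < r → r ≤ 1 →
        (∃ w : ℂ, 1 < ‖w‖ ∧ ‖ψ w - c₀‖ ≤ r ∧ r ^ (Real.log d / Real.log L) / K ≤ ‖w‖ - 1) ∧
        r ^ (Real.log d / Real.log L) / K ≤ (volume (Ang ψ c₀ r)).toReal := by
  obtain ⟨K, hK, h1⟩ := flat_pow hd hc₀ hL hC h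
  obtain ⟨k₁, hk₁, h2⟩ := lower_pow hd ha hL hD
  obtain ⟨k₂, hk₂, h3⟩ := vol_low hd hc₀ ha hL hK hD
  obtain ⟨k, hk⟩ : ∃ k, k = min k₁ k₂ := ⟨_, rfl⟩
  have hk0 : 0 < k := by rw [hk]; positivity
  obtain ⟨K', hK'⟩ : ∃ K', K' = max K (1 / k) := ⟨_, rfl⟩
  have hK'0 : 0 < K' := by rw [hK']; positivity
  have hKK' : K ≤ K' := by rw [hK']; exact le_max_left _ _
  have hkK' : 1 / k ≤ K' := by rw [hK']; exact le_max_right _ _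
  have hdiv : ∀ x k' : ℝ, 0 ≤ x → k ≤ k' → x / K' ≤ k' * x := by
    intro x k' hx hkk
    rw [div_le_iff₀ hK'0]
    have h4 : 1 ≤ k * K' := by
      have h5 := mul_le_mul_of_nonneg_left hkK' hk0.le
      rwa [mul_one_div_cancel hk0.ne'] at h5
    have h5 : k * K' ≤ k' * K' := mul_le_mul_of_nonneg_right hkk hK'0.le
    have h6 : x * 1 ≤ x * (k' * K') := mul_le_mul_of_nonneg_left (h4.trans h5) hx
    linarith
  refine ⟨K', hK'0, ?_⟩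
  intro ψ hψ
  obtain ⟨e1, e2, e3⟩ := h1 ψ hψ
  refine ⟨⟨?_, ?_, ?_⟩, ?_⟩
  · intro w hw hw2
    exact (e1 w hw hw2).trans (mul_le_mul_of_nonneg_right hKK' (by positivity))
  · intro r hr
    exact (e2 r hr).trans (mul_le_mul_of_nonneg_right hKK' (by positivity))
  · intro F hF hE ζ hζ hFζ δ hδ0 hδ1
    obtain ⟨ξ, g1, g2, g3⟩ := e3 F hF hE ζ hζ hFζ δ hδ0 hδ1
    refine ⟨ξ, g1, g2, le_trans ?_ g3⟩
    exact div_le_div_of_nonneg_left (by positivity) hK hKK'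
  · intro r hr hr1
    constructor
    · obtain ⟨w, g1, g2, g3⟩ := h2 ψ hψ r hr hr1
      refine ⟨w, g1, g2, le_trans ?_ g3⟩
      exact hdiv _ _ (by positivity) (by rw [hk]; exact min_le_left _ _)
    · refine le_trans ?_ (h3 ψ hψ (Pool.Agent.Y736.HG.ae_land hd hψ) e1 r hr hr1)
      exact hdiv _ _ (by positivity) (by rw [hk]; exact min_le_right _ _)

/-- **The local moduli.** -/
theorem main {d : ℕ} (hd : 2 ≤ d) {c₀ : ℂ} (hc₀ : c₀ ∈ multibrotSet d) :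
    (∀ L : ℝ, 1 < L → ((∃ C : ℝ, ∀ m n, ‖deriv ((fc d c₀)^[n]) (P d m c₀)‖ ≤ C * L ^ n) ∨
        ∃ N : ℕ, 1 ≤ N ∧ ∀ᶠ m in atTop, ‖deriv ((fc d c₀)^[N]) (P d m c₀)‖ ≤ L ^ N) →
      ∃ K : ℝ, 0 < K ∧ ∀ ψ : ℂ → ℂ, IsExteriorMap (multibrotSet d) ψ →
        Flat ψ c₀ (fun r => K * r ^ (Real.log d / Real.log L))
          (fun δ => δ ^ (Real.log L / Real.log d) / K)) ∧
    (((∃ C : ℝ, ∀ m n, ‖deriv ((fc d c₀)^[n]) (P d m c₀)‖ ≤ C) ∨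
        ∃ (N : ℕ) (z₀ : ℂ), 1 ≤ N ∧ (fc d c₀)^[N] z₀ = z₀ ∧ deriv ((fc d c₀)^[N]) z₀ = 1 ∧
          Tendsto (fun k => P d (N * k) c₀) atTop (𝓝 z₀)) →
      ∃ K A : ℝ, 1 < K ∧ 0 < A ∧ ∀ ψ : ℂ → ℂ, IsExteriorMap (multibrotSet d) ψ →
        Flat ψ c₀ (fun r => K * Real.exp (-(A / √r))) (fun δ => (A / Real.log (K / δ)) ^ 2)) ∧
    (∀ l p : ℕ, 1 ≤ p → P d (l + p) c₀ = P d l c₀ → (∀ n : ℕ, 1 ≤ n → P d n c₀ ≠ 0) →
      1 < ‖deriv ((fc d c₀)^[p]) (P d l c₀)‖ ∧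
      ∃ K : ℝ, 0 < K ∧ ∀ ψ : ℂ → ℂ, IsExteriorMap (multibrotSet d) ψ →
        ∀ s : ℝ, s = p * Real.log d / Real.log ‖deriv ((fc d c₀)^[p]) (P d l c₀)‖ →
          Flat ψ c₀ (fun r => K * r ^ s) (fun δ => δ ^ (1 / s) / K) ∧
          ∀ r : ℝ, 0 < r → r ≤ 1 →
            (∃ w : ℂ, 1 < ‖w‖ ∧ ‖ψ w - c₀‖ ≤ r ∧ r ^ s / K ≤ ‖w‖ - 1) ∧
            r ^ s / K ≤ (volume (Ang ψ c₀ r)).toReal) := by
  have hd1 : (1 : ℝ) < d := by exact_mod_cast (by omega : 1 < d)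
  have hlogd : 0 < Real.log d := Real.log_pos hd1
  refine ⟨?_, ?_, ?_⟩
  · intro L hL h
    obtain ⟨C, hC, h1⟩ := bound_of' hd hc₀ hL.le h
    exact flat_pow hd hc₀ hL hC h1
  · intro h
    obtain ⟨C, hC⟩ : ∃ C : ℝ, ∀ m n, m ≤ n → dL d c₀ m n ≤ C := by
      rcases h with ⟨C, h⟩ | ⟨N, z₀, hN, hfix, hder, hlim⟩
      · refine ⟨C, fun m n hmn => ?_⟩
        obtain ⟨k, rfl⟩ := Nat.exists_eq_add_of_le hmn
        rw [← norm_deriv_iter]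
        exact h m k
      · exact parabolic_dL hd hc₀ hN hfix hder hlim
    exact flat_exp hd hc₀ hC
  · intro l p hp hlp hnp
    have hl : 1 ≤ l := by
      by_contra hcon
      have h0 : l = 0 := by omega
      rw [h0, zero_add, P_zero] at hlp
      exact hnp p hp hlp
    have hmu := one_lt_mult hd hnp hl hp hlp
    rw [← norm_deriv_iter] at hmu
    obtain ⟨μ, hμ⟩ : ∃ μ, μ = ‖deriv ((fc d c₀)^[p]) (P d l c₀)‖ := ⟨_, rfl⟩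
    rw [← hμ] at hmu ⊢
    refine ⟨hmu, ?_⟩
    have hpR : (0 : ℝ) < p := by exact_mod_cast (by omega : 0 < p)
    obtain ⟨Λ, hΛ⟩ : ∃ Λ : ℝ, Λ = μ ^ (1 / (p : ℝ)) := ⟨_, rfl⟩
    have hΛ1 : 1 < Λ := by
      rw [hΛ]
      exact Real.one_lt_rpow hmu (by positivity)
    have hΛp : Λ ^ p = dL d c₀ l (l + p) := by
      rw [← norm_deriv_iter, ← hμ, hΛ, ← Real.rpow_natCast, ← Real.rpow_mul (by linarith),
        one_div, inv_mul_cancel₀ hpR.ne', Real.rpow_one]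
    obtain ⟨⟨C, hC, h1⟩, -⟩ := mis_bounds hd hc₀ hnp hl hp hlp hΛ1 hΛp
    obtain ⟨a, ha, h2⟩ := mis_param hd hc₀ hnp hl hp hlp hΛ1 hΛp
    obtain ⟨K, hK, h3⟩ := sharp_pow hd hc₀ hΛ1 hC h1 ha h2
    have hlogμ : 0 < Real.log μ := Real.log_pos hmu
    have e1 : Real.log d / Real.log Λ = p * Real.log d / Real.log μ := by
      rw [hΛ, Real.log_rpow (by linarith)]
      field_simp
    have e2 : Real.log Λ / Real.log d = 1 / (p * Real.log d / Real.log μ) := by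
      rw [hΛ, Real.log_rpow (by linarith)]
      field_simp
    rw [e1, e2] at h3
    refine ⟨K, hK, ?_⟩
    rintro ψ hψ s rfl
    exact h3 ψ hψ

end Run7.h495.HM
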