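import Pool.Agent.Y736.HL1

set_option autoImplicit false

/-! # Comparison of the critical orbits of two nearby parameters, degree `d` -/

namespace Run7.h495.HM

open Complex Metric Set Filter Topology Pool.Agent.H712R2 Pool.Agent.H713R2 N62a1eb23
open Pool.Agent.Y736.HL

/-- the modulus of the derivative of `f_c^(n-m)` at the `m`-th point of the critical orbit -/
noncomputable def dL (d : ℕ) (c : ℂ) (m n : ℕ) : ℝ :=
  ∏ i ∈ Finset.Ico m n, ‖(d : ℂ) * P d i c ^ (d - 1)‖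

theorem dL_nonneg (d : ℕ) (c : ℂ) (m n : ℕ) : 0 ≤ dL d c m n :=
  Finset.prod_nonneg fun _ _ => norm_nonneg _

theorem dL_self (d : ℕ) (c : ℂ) (m : ℕ) : dL d c m m = 1 := by simp [dL]

theorem dL_succ (d : ℕ) (c : ℂ) {m n : ℕ} (h : m ≤ n) :
    dL d c m (n + 1) = dL d c m n * ‖(d : ℂ) * P d n c ^ (d - 1)‖ :=
  Finset.prod_Ico_succ_top h _

theorem dL_mul (d : ℕ) (c : ℂ) {m k n : ℕ} (h1 : m ≤ k) (h2 : k ≤ n) :
    dL d c m k * dL d c k n = dL d c m n :=
  Finset.prod_Ico_consecutive _ h1 h2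

/-- the universal bound for the derivative -/
def BD (d : ℕ) : ℝ := d * 2 ^ (d - 1)

theorem one_le_BD {d : ℕ} (hd : 2 ≤ d) : 1 ≤ BD d := by
  unfold BD
  have h1 : (1 : ℝ) ≤ d := by exact_mod_cast (by omega : 1 ≤ d)
  have h2 : (1 : ℝ) ≤ 2 ^ (d - 1) := one_le_pow₀ (by norm_num)
  nlinarith

theorem dL_le {d : ℕ} (hd : 2 ≤ d) (c : ℂ) (hc : c ∈ multibrotSet d) {m n : ℕ} :
    dL d c m n ≤ BD d ^ (n - m) := by
  unfold dL
  have h := Finset.prod_le_prod (s := Finset.Ico m n)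
    (f := fun i => ‖(d : ℂ) * P d i c ^ (d - 1)‖)
    (g := fun _ => BD d) (fun i _ => norm_nonneg _) (by
      intro i _
      rw [norm_mul, norm_pow, Complex.norm_natCast]
      have := (mem_multibrot_iff hd c).1 hc i
      unfold BD
      apply mul_le_mul_of_nonneg_left _ (Nat.cast_nonneg d)
      exact pow_le_pow_left₀ (norm_nonneg _) this _)
  rwa [Finset.prod_const, Nat.card_Ico] at h

/-- second order expansion of a power -/
theorem pow_exp {a x : ℂ} (ha : ‖a‖ ≤ 2) (hx : ‖x‖ ≤ 1) (k : ℕ) :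
    ‖(a + x) ^ k - a ^ k - k * a ^ (k - 1) * x‖ ≤ 4 ^ k * ‖x‖ ^ 2 := by
  induction k with
  | zero => simp
  | succ k ih =>
    have e : (a + x) ^ (k + 1) - a ^ (k + 1) - ((k + 1 : ℕ) : ℂ) * a ^ (k + 1 - 1) * x =
        (a + x) * ((a + x) ^ k - a ^ k - k * a ^ (k - 1) * x) + k * a ^ (k - 1) * x ^ 2 := by
      rcases Nat.eq_zero_or_pos k with rfl | hk
      · simp
      · obtain ⟨j, rfl⟩ : ∃ j, k = j + 1 := ⟨k - 1, by omega⟩
        simp only [Nat.add_sub_cancel]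
        push_cast
        ring
    rw [e]
    have h1 : ‖a + x‖ ≤ 3 := (norm_add_le _ _).trans (by linarith)
    have h2 := norm_add_le ((a + x) * ((a + x) ^ k - a ^ k - k * a ^ (k - 1) * x))
      (k * a ^ (k - 1) * x ^ 2)
    rw [norm_mul, norm_mul, norm_mul, norm_pow, norm_pow, Complex.norm_natCast] at h2
    have h3 : ‖a + x‖ * ‖(a + x) ^ k - a ^ k - k * a ^ (k - 1) * x‖ ≤ 3 * (4 ^ k * ‖x‖ ^ 2) :=
      mul_le_mul h1 ih (norm_nonneg _) (by norm_num)
    have h4 : (k : ℝ) * ‖a‖ ^ (k - 1) ≤ 4 ^ k := by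
      have h5 : (k : ℝ) ≤ 2 ^ k := by exact_mod_cast (Nat.lt_two_pow_self (n := k)).le
      have h6 : ‖a‖ ^ (k - 1) ≤ 2 ^ (k - 1) := pow_le_pow_left₀ (norm_nonneg _) ha _
      have h7 : (2 : ℝ) ^ (k - 1) ≤ 2 ^ k := pow_le_pow_right₀ (by norm_num) (by omega)
      have e4 : (4 : ℝ) ^ k = 2 ^ k * 2 ^ k := by
        rw [← mul_pow]; norm_num
      rw [e4]
      exact mul_le_mul h5 (h6.trans h7) (by positivity) (by positivity)
    have h5 := mul_le_mul_of_nonneg_right h4 (sq_nonneg ‖x‖)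
    rw [show (4 : ℝ) ^ (k + 1) = 4 ^ k * 4 from pow_succ _ _]
    linarith

/-- the variation of constants bound -/
theorem duhamel {d : ℕ} (hd : 2 ≤ d) {c₀ : ℂ} (hc₀ : c₀ ∈ multibrotSet d) (c : ℂ) (k : ℕ)
    (h1 : ∀ j, j < k → ‖P d j c - P d j c₀‖ ≤ 1) :
    ‖P d k c - P d k c₀‖ ≤
      ∑ j ∈ Finset.range k, dL d c₀ (j + 1) k *
        (‖c - c₀‖ + 4 ^ d * ‖P d j c - P d j c₀‖ ^ 2) := by
  induction k with
  | zero => simp [P_zero]
  | succ k ih =>
    have ih' := ih fun j hj => h1 j (by omega)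
    rw [Finset.sum_range_succ, dL_self, one_mul]
    have hk1 := h1 k (by omega)
    have hb := (mem_multibrot_iff hd c₀).1 hc₀ k
    have hE := pow_exp hb hk1 d
    have e : P d (k + 1) c - P d (k + 1) c₀ =
        (d : ℂ) * P d k c₀ ^ (d - 1) * (P d k c - P d k c₀) +
        ((P d k c₀ + (P d k c - P d k c₀)) ^ d - P d k c₀ ^ d -
          d * P d k c₀ ^ (d - 1) * (P d k c - P d k c₀)) + (c - c₀) := by
      rw [P_succ, P_succ]
      rw [show P d k c₀ + (P d k c - P d k c₀) = P d k c by ring]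
      ring
    have h2 : ‖P d (k + 1) c - P d (k + 1) c₀‖ ≤
        ‖(d : ℂ) * P d k c₀ ^ (d - 1)‖ * ‖P d k c - P d k c₀‖ +
          4 ^ d * ‖P d k c - P d k c₀‖ ^ 2 + ‖c - c₀‖ := by
      rw [e]
      refine (norm_add_le _ _).trans (add_le_add_left ?_ _)
      refine (norm_add_le _ _).trans ?_
      rw [norm_mul]
      linarith
    have h3 : ∑ j ∈ Finset.range k, dL d c₀ (j + 1) (k + 1) *
        (‖c - c₀‖ + 4 ^ d * ‖P d j c - P d j c₀‖ ^ 2) =
        ‖(d : ℂ) * P d k c₀ ^ (d - 1)‖ * ∑ j ∈ Finset.range k, dL d c₀ (j + 1) k *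
          (‖c - c₀‖ + 4 ^ d * ‖P d j c - P d j c₀‖ ^ 2) := by
      rw [Finset.mul_sum]
      apply Finset.sum_congr rfl
      intro j hj
      rw [dL_succ d c₀ (Finset.mem_range.1 hj)]
      ring
    rw [h3]
    have h4 := mul_le_mul_of_nonneg_left ih' (norm_nonneg ((d : ℂ) * P d k c₀ ^ (d - 1)))
    linarith

/-- the two orbits stay together -/
theorem close {d : ℕ} (hd : 2 ≤ d) {c₀ c : ℂ} (hc₀ : c₀ ∈ multibrotSet d) {C L : ℝ} (hL : 1 ≤ L)
    (hC : 0 < C) (hD : ∀ m n, m ≤ n → dL d c₀ m n ≤ C * L ^ (n - m)) {n : ℕ}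
    (hn : 4 * C ^ 2 * 4 ^ d * ‖c - c₀‖ * TT L n ≤ 1) (hn' : 2 * C * ‖c - c₀‖ * SS L n ≤ 1) :
    ∀ k, k ≤ n → ‖P d k c - P d k c₀‖ ≤ 2 * C * ‖c - c₀‖ * SS L k := by
  set ε := ‖c - c₀‖ with hε
  have hε0 : 0 ≤ ε := norm_nonneg _
  intro k
  induction k using Nat.strong_induction_on with
  | _ k ih =>
    intro hk
    have hle1 : ∀ j, j < k → ‖P d j c - P d j c₀‖ ≤ 1 := by
      intro j hj
      refine (ih j hj (hj.le.trans hk)).trans (le_trans ?_ hn')
      apply mul_le_mul_of_nonneg_left (SS_mono hL (hj.le.trans hk)) (by positivity)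
    have h1 := duhamel hd hc₀ c k hle1
    rw [← hε] at h1
    have h2 : ∀ j ∈ Finset.range k,
        dL d c₀ (j + 1) k * (ε + 4 ^ d * ‖P d j c - P d j c₀‖ ^ 2) ≤
        C * ε * L ^ (k - 1 - j) + C * ε * (4 * C ^ 2 * 4 ^ d * ε * SS L j) * SS L k := by
      intro j hj
      have hjk := Finset.mem_range.1 hj
      have h3 := ih j hjk (hjk.le.trans hk)
      have h4 : ‖P d j c - P d j c₀‖ ^ 2 ≤ (2 * C * ε * SS L j) ^ 2 :=
        pow_le_pow_left₀ (norm_nonneg _) h3 2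
      have h4' : (4 : ℝ) ^ d * ‖P d j c - P d j c₀‖ ^ 2 ≤ 4 ^ d * (2 * C * ε * SS L j) ^ 2 :=
        mul_le_mul_of_nonneg_left h4 (by positivity)
      have h5 : dL d c₀ (j + 1) k ≤ C * L ^ (k - 1 - j) := by
        have := hD (j + 1) k hjk
        rwa [show k - (j + 1) = k - 1 - j by omega] at this
      have hLp : 0 ≤ L ^ (k - 1 - j) := by positivity
      have hS := SS_nonneg hL j
      have h6 : L ^ (k - 1 - j) * SS L j ≤ SS L k := by
        refine le_trans ?_ (SS_shift hL hjk.le)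
        apply mul_le_mul_of_nonneg_right _ hS
        exact pow_le_pow_right₀ hL (by omega)
      calc dL d c₀ (j + 1) k * (ε + 4 ^ d * ‖P d j c - P d j c₀‖ ^ 2)
          ≤ C * L ^ (k - 1 - j) * (ε + 4 ^ d * (2 * C * ε * SS L j) ^ 2) := by
            apply mul_le_mul h5 (by linarith) (by positivity) (by positivity)
        _ = C * ε * L ^ (k - 1 - j) + C * ε * (4 * C ^ 2 * 4 ^ d * ε * SS L j) *
            (L ^ (k - 1 - j) * SS L j) := by ring
        _ ≤ _ := by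
            apply add_le_add_right
            apply mul_le_mul_of_nonneg_left h6
            positivity
    have h3 := Finset.sum_le_sum h2
    rw [Finset.sum_add_distrib, ← Finset.mul_sum, SS_reflect, ← Finset.sum_mul, ← Finset.mul_sum,
      ← Finset.mul_sum] at h3
    have h4 : 4 * C ^ 2 * 4 ^ d * ε * ∑ j ∈ Finset.range k, SS L j ≤ 1 := by
      refine le_trans ?_ hn
      apply mul_le_mul_of_nonneg_left (TT_mono hL hk)
      positivity
    have hS := SS_nonneg hL k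
    have h5 : C * ε * (4 * C ^ 2 * 4 ^ d * ε * ∑ j ∈ Finset.range k, SS L j) * SS L k ≤
        C * ε * 1 * SS L k := by
      apply mul_le_mul_of_nonneg_right _ hS
      exact mul_le_mul_of_nonneg_left h4 (by positivity)
    linarith

end Run7.h495.HM
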