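import Pool.Agent.Run7.h495.HM.A1

set_option autoImplicit false

/-! # Upper bounds for the escape rate near a parameter of a Multibrot set -/

namespace Run7.h495.HM

open Complex Metric Set Filter Topology Pool.Agent.H712R2 Pool.Agent.H713R2 N62a1eb23
open Pool.Agent.Y736.HL

/-- upper bound of the escape rate when the orbit stays bounded for a long time -/
theorem green_lower3 {d : ℕ} (hd : 2 ≤ d) {ψ : ℂ → ℂ} (hψ : IsExteriorMap (multibrotSet d) ψ)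
    {z : ℂ} (hz : 1 < ‖z‖) {n : ℕ} (h1 : ‖ψ z‖ ≤ 3) (h2 : ‖P d (n + 1) (ψ z)‖ ≤ 3) :
    ‖z‖ ^ (d ^ n) ≤ 4 := by
  obtain ⟨β, hβ⟩ := exists_beta (d := d) hd
  rw [exteriorMap_unique hβ hψ hz] at h1 h2
  obtain ⟨hx, hx0⟩ := inv_mem_ball hz
  obtain ⟨c, hc⟩ : ∃ c, c = z * β z⁻¹ := ⟨_, rfl⟩
  rw [← hc] at h1 h2
  have hgrow : ∀ j, ‖P d (n + 1 + j) c‖ ≤ 4 ^ (d ^ j) - 1 := by
    intro j
    induction j with
    | zero =>
      rw [add_zero, pow_zero, pow_one]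
      linarith
    | succ j ih =>
      rw [← add_assoc, P_succ]
      have h3 : (4 : ℝ) ≤ 4 ^ (d ^ j) := by
        have : (4 : ℝ) ^ 1 ≤ 4 ^ (d ^ j) :=
          pow_le_pow_right₀ (by norm_num) (Nat.one_le_pow _ _ (by omega))
        rwa [pow_one] at this
      have h4 := norm_add_le (P d (n + 1 + j) c ^ d) c
      rw [norm_pow] at h4
      have h5 : ‖P d (n + 1 + j) c‖ ^ d ≤ (4 ^ (d ^ j) - 1) ^ d :=
        pow_le_pow_left₀ (norm_nonneg _) ih d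
      have h6 : (4 : ℝ) ^ (d ^ (j + 1)) = (4 ^ (d ^ j)) ^ d := by
        rw [← pow_mul, pow_succ]
      obtain ⟨A, hA⟩ : ∃ A : ℝ, A = 4 ^ (d ^ j) := ⟨_, rfl⟩
      rw [h6]
      rw [← hA] at h3 h5 ⊢
      obtain ⟨e, rfl⟩ : ∃ e, d = e + 1 := ⟨d - 1, by omega⟩
      have h7 : (A - 1) ^ (e + 1) ≤ A ^ e * (A - 1) := by
        rw [pow_succ]
        apply mul_le_mul_of_nonneg_right _ (by linarith)
        exact pow_le_pow_left₀ (by linarith) (by linarith) _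
      have h8 : A ^ 1 ≤ A ^ e := pow_le_pow_right₀ (by linarith) (by omega)
      rw [pow_one] at h8
      have h9 : A ^ (e + 1) = A ^ e * A := pow_succ _ _
      rw [h9]
      nlinarith
  obtain ⟨κ, hκ⟩ : ∃ κ, κ = Real.exp (-(2 * Real.log 2 * ‖z⁻¹‖ / (1 - ‖z⁻¹‖))) := ⟨_, rfl⟩
  have hκ0 : 0 < κ := by rw [hκ]; exact Real.exp_pos _
  by_contra hcon
  push Not at hcon
  have hzpos : 0 < ‖z‖ := by linarith
  have key : ∀ j, κ ≤ (4 / ‖z‖ ^ (d ^ n)) ^ (d ^ j) := by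
    intro j
    have h3 := Pool.Agent.W677.MB.BB_lower hd hβ (n + j) hx
    rw [← hκ, BB_eq hd β (n + j) z⁻¹ hx0, inv_inv, ← hc, norm_mul, norm_pow, norm_inv] at h3
    have h4 := hgrow j
    rw [show n + 1 + j = n + j + 1 by ring] at h4
    have h5 : ‖z‖⁻¹ ^ d ^ (n + j) * ‖P d (n + j + 1) c‖ ≤ ‖z‖⁻¹ ^ d ^ (n + j) * 4 ^ (d ^ j) :=
      mul_le_mul_of_nonneg_left (by linarith) (by positivity)
    refine h3.trans (h5.trans (le_of_eq ?_))
    rw [div_pow, ← pow_mul, ← pow_add, inv_pow]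
    field_simp
  have hlt : 4 / ‖z‖ ^ (d ^ n) < 1 := by
    rw [div_lt_one (by positivity)]
    exact hcon
  have hlim : Tendsto (fun j : ℕ => (4 / ‖z‖ ^ (d ^ n)) ^ (d ^ j)) atTop (𝓝 0) :=
    (tendsto_pow_atTop_nhds_zero_of_lt_one (by positivity) hlt).comp
      (tendsto_pow_atTop_atTop_of_one_lt (by omega : 1 < d))
  have := ge_of_tendsto' hlim key
  linarith

/-- if the orbits are `1`-close at time `n + 1`, then `‖w‖ - 1 ≤ 3 / d^n` -/
theorem rate_le {d : ℕ} (hd : 2 ≤ d) {c₀ : ℂ} (hc₀ : c₀ ∈ multibrotSet d) {ψ : ℂ → ℂ}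
    (hψ : IsExteriorMap (multibrotSet d) ψ) {w : ℂ} (hw : 1 < ‖w‖) {n : ℕ}
    (h1 : ‖ψ w - c₀‖ ≤ 1) (h2 : ‖P d (n + 1) (ψ w) - P d (n + 1) c₀‖ ≤ 1) :
    ‖w‖ - 1 ≤ 3 * d ^ 2 / d ^ (n + 2) := by
  have hb := (mem_multibrot_iff hd c₀).1 hc₀
  have hd0 : (0 : ℝ) < d := by exact_mod_cast (by omega : 0 < d)
  have h3 : ‖c₀‖ ≤ 2 := by
    have := hb 1
    rwa [P_one hd] at this
  have h4 : ‖ψ w‖ ≤ 3 := by
    have := norm_add_le (ψ w - c₀) c₀
    rw [sub_add_cancel] at this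
    linarith
  have h5 : ‖P d (n + 1) (ψ w)‖ ≤ 3 := by
    have := norm_add_le (P d (n + 1) (ψ w) - P d (n + 1) c₀) (P d (n + 1) c₀)
    rw [sub_add_cancel] at this
    linarith [hb (n + 1)]
  have h6 := green_lower3 hd hψ hw h4 h5
  have h7 := one_add_mul_le_pow (a := ‖w‖ - 1) (by linarith) (d ^ n)
  rw [show 1 + (‖w‖ - 1) = ‖w‖ by ring] at h7
  push_cast at h7
  rw [le_div_iff₀ (by positivity), pow_add]
  have h8 : ((d : ℝ) ^ n * (‖w‖ - 1)) * d ^ 2 ≤ 3 * d ^ 2 :=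
    mul_le_mul_of_nonneg_right (by linarith) (by positivity)
  linarith

theorem ne_param {d : ℕ} {c₀ : ℂ} (hc₀ : c₀ ∈ multibrotSet d) {ψ : ℂ → ℂ}
    (hψ : IsExteriorMap (multibrotSet d) ψ) {w : ℂ} (hw : 1 < ‖w‖) : 0 < ‖ψ w - c₀‖ := by
  rw [norm_pos_iff, sub_ne_zero]
  intro h
  have h1 : ψ w ∈ (multibrotSet d)ᶜ := by
    rw [← hψ.image]
    exact ⟨w, hw, rfl⟩
  rw [h] at h1
  exact h1 hc₀

/-- power upper bound -/
theorem upper_pow {d : ℕ} (hd : 2 ≤ d) {c₀ : ℂ} (hc₀ : c₀ ∈ multibrotSet d) {C L : ℝ}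
    (hL : 1 < L) (hC : 0 < C) (hD : ∀ m n, m ≤ n → dL d c₀ m n ≤ C * L ^ (n - m)) :
    ∃ K : ℝ, 0 < K ∧ ∀ ψ : ℂ → ℂ, IsExteriorMap (multibrotSet d) ψ → ∀ w : ℂ, 1 < ‖w‖ →
      ‖w‖ ≤ 2 → ‖w‖ - 1 ≤ K * ‖ψ w - c₀‖ ^ (Real.log d / Real.log L) := by
  have hL0 : 0 < L - 1 := by linarith
  have hd0 : (0 : ℝ) < d := by exact_mod_cast (by omega : 0 < d)
  have hd1 : (1 : ℝ) < d := by exact_mod_cast (by omega : 1 < d)
  obtain ⟨B, hB⟩ : ∃ B, B = 4 * C ^ 2 * 4 ^ d / (L - 1) ^ 2 + 2 * C / (L - 1) + 1 := ⟨_, rfl⟩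
  have hb1 : 0 < 4 * C ^ 2 * 4 ^ d / (L - 1) ^ 2 := by positivity
  have hb2 : 0 < 2 * C / (L - 1) := by positivity
  have hB1 : 1 ≤ B := by linarith
  have hBa : 4 * C ^ 2 * 4 ^ d / (L - 1) ^ 2 ≤ B := by linarith
  have hBb : 2 * C / (L - 1) ≤ B := by linarith
  have hB0 : 0 < B := by linarith
  have hlogL : 0 < Real.log L := Real.log_pos hL
  have hlogd : 0 < Real.log d := Real.log_pos hd1
  obtain ⟨s, hs⟩ : ∃ s, s = Real.log d / Real.log L := ⟨_, rfl⟩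
  have hs0 : 0 < s := by rw [hs]; positivity
  refine ⟨3 * d ^ 2 * B ^ s + (B * L) ^ s, by positivity, ?_⟩
  intro ψ hψ w hw hw2
  rw [← hs]
  obtain ⟨ε, hε⟩ : ∃ ε, ε = ‖ψ w - c₀‖ := ⟨_, rfl⟩
  have hε0 : 0 < ε := by
    rw [hε]
    exact ne_param hc₀ hψ hw
  rw [← hε]
  rcases le_or_gt (B * ε * L) 1 with h | h
  · obtain ⟨n, hn1, hn2⟩ := exists_nat_pow_near (x := 1 / (B * ε * L)) (y := L) (by
      rw [le_div_iff₀ (by positivity)]
      linarith) hL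
    rw [le_div_iff₀ (by positivity)] at hn1
    rw [div_lt_iff₀ (by positivity)] at hn2
    have h1 : B * ε * L ^ (n + 1) ≤ 1 := by
      rw [pow_succ]
      linarith
    have h2 : 1 < B * ε * L ^ (n + 2) := by
      rw [pow_succ]
      linarith
    have hLn : 0 < L ^ (n + 1) := by positivity
    have h3 : 4 * C ^ 2 * 4 ^ d * ‖ψ w - c₀‖ * TT L (n + 1) ≤ 1 := by
      rw [← hε]
      have h4 := TT_le hL (n + 1)
      calc 4 * C ^ 2 * 4 ^ d * ε * TT L (n + 1)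
          ≤ 4 * C ^ 2 * 4 ^ d * ε * (L ^ (n + 1) / (L - 1) ^ 2) :=
            mul_le_mul_of_nonneg_left h4 (by positivity)
        _ = 4 * C ^ 2 * 4 ^ d / (L - 1) ^ 2 * (ε * L ^ (n + 1)) := by ring
        _ ≤ B * (ε * L ^ (n + 1)) := mul_le_mul_of_nonneg_right hBa (by positivity)
        _ ≤ 1 := by linarith
    have h6 : 2 * C * ‖ψ w - c₀‖ * SS L (n + 1) ≤ 1 := by
      rw [← hε]
      have h4 := SS_le hL (n + 1)
      calc 2 * C * ε * SS L (n + 1) ≤ 2 * C * ε * (L ^ (n + 1) / (L - 1)) :=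
            mul_le_mul_of_nonneg_left h4 (by positivity)
        _ = 2 * C / (L - 1) * (ε * L ^ (n + 1)) := by ring
        _ ≤ B * (ε * L ^ (n + 1)) := mul_le_mul_of_nonneg_right hBb (by positivity)
        _ ≤ 1 := by linarith
    have h5 := close hd hc₀ hL.le hC hD h3 h6 (n + 1) le_rfl
    rw [← hε] at h5 h6
    have h7 : ε ≤ 1 := by
      have : ε * 1 ≤ ε * (B * L) := mul_le_mul_of_nonneg_left (by nlinarith) hε0.le
      linarith
    have h8 := rate_le hd hc₀ hψ hw (n := n) (by rw [← hε]; exact h7) (h5.trans h6)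
    have h9 : (1 : ℝ) / d ^ (n + 2) ≤ (B * ε) ^ s := by
      have e1 : (d : ℝ) ^ (n + 2) = (L ^ (n + 2)) ^ s := by
        rw [← Real.rpow_natCast L (n + 2), ← Real.rpow_mul (by linarith),
          ← Real.rpow_natCast (d : ℝ) (n + 2)]
        rw [Real.rpow_def_of_pos hd0, Real.rpow_def_of_pos (by linarith), hs]
        congr 1
        field_simp
      rw [e1, div_le_iff₀ (by positivity), ← Real.mul_rpow (by positivity) (by positivity)]
      exact Real.one_le_rpow h2.le hs0.le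
    rw [Real.mul_rpow hB0.le hε0.le] at h9
    have h10 : 0 ≤ (B * L) ^ s * ε ^ s := by positivity
    have e2 : (3 : ℝ) * d ^ 2 / d ^ (n + 2) = 3 * d ^ 2 * (1 / d ^ (n + 2)) := by ring
    rw [e2] at h8
    have h11 : 3 * (d : ℝ) ^ 2 * (1 / d ^ (n + 2)) ≤ 3 * d ^ 2 * (B ^ s * ε ^ s) :=
      mul_le_mul_of_nonneg_left h9 (by positivity)
    calc ‖w‖ - 1 ≤ 3 * d ^ 2 * (B ^ s * ε ^ s) := h8.trans h11
      _ ≤ 3 * d ^ 2 * (B ^ s * ε ^ s) + (B * L) ^ s * ε ^ s := by linarith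
      _ = _ := by ring
  · have h1 : 1 ≤ (B * ε * L) ^ s := Real.one_le_rpow h.le hs0.le
    rw [show B * ε * L = B * L * ε by ring, Real.mul_rpow (by positivity) hε0.le] at h1
    have h2 : 0 ≤ 3 * (d : ℝ) ^ 2 * B ^ s * ε ^ s := by positivity
    calc ‖w‖ - 1 ≤ 1 := by linarith
      _ ≤ 3 * (d : ℝ) ^ 2 * B ^ s * ε ^ s + (B * L) ^ s * ε ^ s := by linarith
      _ = _ := by ring

/-- stretched exponential upper bound when the derivatives stay bounded -/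
theorem upper_exp {d : ℕ} (hd : 2 ≤ d) {c₀ : ℂ} (hc₀ : c₀ ∈ multibrotSet d) {C : ℝ}
    (hD : ∀ m n, m ≤ n → dL d c₀ m n ≤ C) :
    ∃ A : ℝ, 0 < A ∧ ∀ ψ : ℂ → ℂ, IsExteriorMap (multibrotSet d) ψ → ∀ w : ℂ, 1 < ‖w‖ →
      ‖w‖ ≤ 2 → ‖w‖ - 1 ≤ 3 * d ^ 2 * Real.exp (-(A / √‖ψ w - c₀‖)) := by
  have hd0 : (0 : ℝ) < d := by exact_mod_cast (by omega : 0 < d)
  have hd1 : (1 : ℝ) < d := by exact_mod_cast (by omega : 1 < d)
  have hC1 : 1 ≤ C := by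
    have := hD 0 0 le_rfl
    rwa [dL_self] at this
  have hC : 0 < C := by linarith
  have hlogd : 0 < Real.log d := Real.log_pos hd1
  obtain ⟨D, hDdef⟩ : ∃ D, D = 2 * C * 2 ^ d := ⟨_, rfl⟩
  have hD0 : 0 < D := by rw [hDdef]; positivity
  have h2d : (1 : ℝ) ≤ 2 ^ d := one_le_pow₀ (by norm_num)
  have h2CD : 2 * C ≤ D := by
    rw [hDdef]
    nlinarith
  have hD1 : 1 ≤ D := by linarith
  have hDsq : D ^ 2 = 4 * C ^ 2 * 4 ^ d := by
    rw [hDdef, mul_pow, ← pow_mul, mul_comm d 2, pow_mul]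
    norm_num
    ring
  refine ⟨Real.log d / D, by positivity, ?_⟩
  intro ψ hψ w hw hw2
  obtain ⟨ε, hε⟩ : ∃ ε, ε = ‖ψ w - c₀‖ := ⟨_, rfl⟩
  have hε0 : 0 < ε := by
    rw [hε]
    exact ne_param hc₀ hψ hw
  rw [← hε]
  obtain ⟨σ, hσ⟩ : ∃ σ, σ = √ε := ⟨_, rfl⟩
  have hσ0 : 0 < σ := by rw [hσ]; exact Real.sqrt_pos.2 hε0
  have hσε : σ ^ 2 = ε := by rw [hσ]; exact Real.sq_sqrt hε0.le
  rw [← hσ]
  have e1 : Real.exp (-(Real.log d / D / σ)) = 1 / (d : ℝ) ^ (1 / (D * σ)) := by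
    rw [Real.rpow_def_of_pos hd0, one_div, ← Real.exp_neg]
    congr 1
    field_simp
  rw [e1]
  rcases le_or_gt (D * σ) 1 with h | h
  · obtain ⟨k, hk⟩ : ∃ k, k = ⌊1 / (D * σ)⌋₊ := ⟨_, rfl⟩
    have h1 : 1 ≤ k := by
      rw [hk]
      apply Nat.le_floor
      rw [Nat.cast_one, le_div_iff₀ (by positivity)]
      linarith
    obtain ⟨n, rfl⟩ := Nat.exists_eq_add_of_le' h1
    have h2 : ((n + 1 : ℕ) : ℝ) * (D * σ) ≤ 1 := by
      have := Nat.floor_le (by positivity : 0 ≤ 1 / (D * σ))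
      rw [← hk, le_div_iff₀ (by positivity)] at this
      exact this
    have h3 : 1 / (D * σ) < (n : ℝ) + 2 := by
      have := Nat.lt_floor_add_one (1 / (D * σ))
      rw [← hk] at this
      push_cast at this
      linarith
    have hn0 : (0 : ℝ) ≤ n := Nat.cast_nonneg n
    push_cast at h2
    have h4 : 4 * C ^ 2 * 4 ^ d * ‖ψ w - c₀‖ * TT 1 (n + 1) ≤ 1 := by
      rw [← hε]
      have h5 := TT_one (n + 1)
      push_cast at h5
      calc 4 * C ^ 2 * 4 ^ d * ε * TT 1 (n + 1) ≤ 4 * C ^ 2 * 4 ^ d * ε * ((n : ℝ) + 1) ^ 2 :=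
            mul_le_mul_of_nonneg_left h5 (by positivity)
        _ = (((n : ℝ) + 1) * (D * σ)) ^ 2 := by rw [← hσε, ← hDsq]; ring
        _ ≤ 1 ^ 2 := pow_le_pow_left₀ (by positivity) h2 2
        _ = 1 := by norm_num
    have hσ1 : σ ≤ 1 := by nlinarith
    have h6 : 2 * C * ‖ψ w - c₀‖ * SS 1 (n + 1) ≤ 1 := by
      rw [← hε, SS_one]
      push_cast
      have e : 2 * C * ε * ((n : ℝ) + 1) = ((n : ℝ) + 1) * (2 * C * σ) * σ := by
        rw [← hσε]; ring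
      rw [e]
      have h7 : ((n : ℝ) + 1) * (2 * C * σ) ≤ ((n : ℝ) + 1) * (D * σ) := by
        apply mul_le_mul_of_nonneg_left _ (by linarith)
        exact mul_le_mul_of_nonneg_right h2CD hσ0.le
      have h8 : ((n : ℝ) + 1) * (2 * C * σ) ≤ 1 := h7.trans h2
      calc ((n : ℝ) + 1) * (2 * C * σ) * σ ≤ 1 * 1 :=
            mul_le_mul h8 hσ1 hσ0.le (by norm_num)
        _ = 1 := by norm_num
    have h5 := close hd hc₀ le_rfl hC
      (fun m n hmn => by rw [one_pow, mul_one]; exact hD m n hmn) h4 h6 (n + 1) le_rfl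
    have h7 : ‖ψ w - c₀‖ ≤ 1 := by rw [← hε, ← hσε]; nlinarith
    have h8 := rate_le hd hc₀ hψ hw (n := n) h7 (h5.trans h6)
    refine h8.trans ?_
    rw [mul_one_div]
    apply div_le_div_of_nonneg_left (by positivity) (by positivity)
    rw [← Real.rpow_natCast (d : ℝ) (n + 2)]
    apply Real.rpow_le_rpow_of_exponent_le hd1.le
    push_cast
    linarith
  · have h1 : (d : ℝ) ^ (1 / (D * σ)) ≤ (d : ℝ) ^ (1 : ℝ) := by
      apply Real.rpow_le_rpow_of_exponent_le hd1.le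
      rw [div_le_one (by positivity)]
      exact h.le
    rw [Real.rpow_one] at h1
    have h2 : (1 : ℝ) / d ≤ 1 / (d : ℝ) ^ (1 / (D * σ)) :=
      one_div_le_one_div_of_le (by positivity) h1
    have h3 : 3 * (d : ℝ) ^ 2 * (1 / d) ≤ 3 * d ^ 2 * (1 / (d : ℝ) ^ (1 / (D * σ))) :=
      mul_le_mul_of_nonneg_left h2 (by positivity)
    have h4 : 3 * (d : ℝ) ^ 2 * (1 / d) = 3 * d := by
      field_simp
    linarith

end Run7.h495.HM
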